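import Pool.Agent.Lib.P773b84.Upper

/-! Upper bound for `g`: the exceptional classes and the summation. -/

namespace Pool.Agent.P773b84

open Finset

open Classical in
/-- the exceptional classes -/
noncomputable def E (n : ℕ) : Finset ℕ :=
  (Icc 1 n).filter (fun v => Nat.Coprime v 6 ∧ ∃ b l : ℕ,
    15 * 3 ^ b * v ≤ n ∧ n < 18 * 3 ^ b * v ∧ 10 * 4 ^ l * v ≤ n ∧ n < 16 * 4 ^ l * v)

theorem mem_E {n v : ℕ} : v ∈ E n ↔ Nat.Coprime v 6 ∧ ∃ b l : ℕ,
    15 * 3 ^ b * v ≤ n ∧ n < 18 * 3 ^ b * v ∧ 10 * 4 ^ l * v ≤ n ∧ n < 16 * 4 ^ l * v := by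
  simp only [E, Finset.mem_filter, Finset.mem_Icc]
  constructor
  · exact fun h => h.2
  · rintro ⟨h, b, l, h1, h2, h3, h4⟩
    refine ⟨⟨cop_pos h, ?_⟩, h, b, l, h1, h2, h3, h4⟩
    have h5 : 1 ≤ 15 * 3 ^ b := Nat.one_le_iff_ne_zero.2 (by positivity)
    have h6 : 1 * v ≤ 15 * 3 ^ b * v := Nat.mul_le_mul_right _ h5
    omega

variable {A : Finset ℕ} {n v : ℕ}

theorem cop_five (hv : Nat.Coprime v 6) : Nat.Coprime (5 * v) 6 := by
  apply Nat.Coprime.mul_left _ hv
  norm_num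

theorem L_of_exc {l : ℕ} (hv : 0 < v) (h3 : 10 * 4 ^ l * v ≤ n) (h4 : n < 16 * 4 ^ l * v) :
    L n v = 2 * l + 3 ∧ L n (5 * v) = 2 * l + 1 := by
  have e1 : (2 : ℕ) ^ (2 * l) = 4 ^ l := by rw [pow_mul]; norm_num
  have f1 : (2 : ℕ) ^ (2 * l + 3) = 8 * 4 ^ l := by rw [pow_add, e1]; ring
  have f2 : (2 : ℕ) ^ (2 * l + 3 + 1) = 16 * 4 ^ l := by rw [pow_add, pow_add, e1]; ring
  have f3 : (2 : ℕ) ^ (2 * l + 1) = 2 * 4 ^ l := by rw [pow_add, e1]; ring
  have f4 : (2 : ℕ) ^ (2 * l + 1 + 1) = 4 * 4 ^ l := by rw [pow_add, pow_add, e1]; ring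
  have h3' : 10 * (4 ^ l * v) ≤ n := by rw [← mul_assoc]; exact h3
  have h4' : n < 16 * (4 ^ l * v) := by rw [← mul_assoc]; exact h4
  constructor
  · apply L_eq hv
    · rw [f1, mul_assoc]; omega
    · rw [f2, mul_assoc]; omega
  · apply L_eq (by omega)
    · rw [f3]
      have : 2 * 4 ^ l * (5 * v) = 10 * (4 ^ l * v) := by ring
      omega
    · rw [f4]
      have : 4 * 4 ^ l * (5 * v) = 20 * (4 ^ l * v) := by ring
      omega

theorem exc_bound (hA : A ⊆ Icc 1 n) (had : Admissible A) (hv : Nat.Coprime v 6) {b l : ℕ}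
    (h1 : 15 * 3 ^ b * v ≤ n) (h2 : n < 18 * 3 ^ b * v) (h3 : 10 * 4 ^ l * v ≤ n)
    (h4 : n < 16 * 4 ^ l * v) :
    (cls A v).card + (cls A (5 * v)).card + 1 ≤
      ((rows n v).card + J n v) + ((rows n (5 * v)).card + J n (5 * v)) := by
  by_contra hcon
  have hv0 := cop_pos hv
  have hw := cop_five hv
  have h1' : 15 * (3 ^ b * v) ≤ n := by rw [← mul_assoc]; exact h1
  have h2' : n < 18 * (3 ^ b * v) := by rw [← mul_assoc]; exact h2
  have p1 : 3 ^ (b + 1) * v = 3 * (3 ^ b * v) := by rw [pow_succ]; ring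
  have p2 : 3 ^ (b + 2) * v = 9 * (3 ^ b * v) := by rw [pow_add]; ring
  have p3 : 3 ^ (b + 1) * (5 * v) = 15 * (3 ^ b * v) := by rw [pow_succ]; ring
  have p4 : 3 ^ b * (5 * v) = 5 * (3 ^ b * v) := by ring
  have c1 := cls_le hA had hv
  have c2 := cls_le hA had hw
  obtain ⟨t1, r1⟩ := cls_tight hA had hv (by omega)
  obtain ⟨t2, r2⟩ := cls_tight hA had hw (by omega)
  obtain ⟨l1, l2⟩ := L_of_exc hv0 h3 h4
  obtain ⟨c, hc0, hc1⟩ := last_row hA had hv (by omega) t1
  obtain ⟨d, hd0, hd1⟩ := last_row hA had hw (by omega) t2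
  -- class of `v`: the last full row is `b+1`
  have hcA : 2 * 3 ^ c * v ≤ n := el_le hA hc1
  have hcb : c ≤ b + 1 := by
    by_contra hlt
    have h8 : 3 ^ (b + 2) ≤ 3 ^ c := Nat.pow_le_pow_right (by norm_num) (by omega)
    have h9 : 3 ^ (b + 2) * v ≤ 3 ^ c * v := Nat.mul_le_mul_right _ h8
    rw [mul_assoc] at hcA
    omega
  have hrow1 : 3 ^ (b + 1) * v ≤ n := by omega
  have hrow2 : 3 ^ (b + 2) * v ≤ n := by omega
  have k1 : 3 ^ (b + 1) * v ∈ A := by
    rcases Nat.lt_or_ge c (b + 1) with hlt | hge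
    · exfalso
      obtain ⟨i, hi⟩ := r1 (b + 1) hrow1
      obtain ⟨j, hj⟩ := r1 (b + 2) hrow2
      have hj0 : j = 0 := by
        by_contra hne
        have hjn := el_le hA hj
        have h6 : 2 ^ 1 ≤ 2 ^ j := Nat.pow_le_pow_right (by norm_num) (by omega)
        have h7 : 2 ^ 1 * 3 ^ (b + 2) * v ≤ 2 ^ j * 3 ^ (b + 2) * v :=
          Nat.mul_le_mul_right _ (Nat.mul_le_mul_right _ h6)
        have h8 : 2 ^ 1 * 3 ^ (b + 2) * v = 18 * (3 ^ b * v) := by rw [pow_add]; ring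
        omega
      subst hj0
      rcases Nat.eq_zero_or_pos i with hi0 | hi0
      · subst hi0
        have hc0' : 2 ^ 0 * 3 ^ c * v ∈ A := by simpa using hc0
        exact no_two had hv hj hc0' hi le_rfl (by omega) le_rfl (by omega) (Or.inr (by omega))
          (Or.inr (by omega)) (Or.inr (by omega))
      · have hc0' : 2 ^ 0 * 3 ^ c * v ∈ A := by simpa using hc0
        have hc1' : 2 ^ 1 * 3 ^ c * v ∈ A := by simpa using hc1
        exact no_two had hv hi hc0' hc1' (by omega) (by omega) (by omega) (by omega)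
          (Or.inr (by omega)) (Or.inr (by omega)) (Or.inl (by omega))
    · have : c = b + 1 := by omega
      subst this
      exact hc0
  -- class of `5v`: the last full row is `b`
  have hdA : 2 * 3 ^ d * (5 * v) ≤ n := el_le hA hd1
  have hdb : d ≤ b := by
    by_contra hlt
    have h8 : 3 ^ (b + 1) ≤ 3 ^ d := Nat.pow_le_pow_right (by norm_num) (by omega)
    have h9 : 3 ^ (b + 1) * (5 * v) ≤ 3 ^ d * (5 * v) := Nat.mul_le_mul_right _ h8
    rw [mul_assoc] at hdA
    omega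
  have hrow3 : 3 ^ (b + 1) * (5 * v) ≤ n := by omega
  have hrow4 : 3 ^ b * (5 * v) ≤ n := by omega
  have k2 : 3 ^ (b + 1) * (5 * v) ∈ A := by
    obtain ⟨i, hi⟩ := r2 (b + 1) hrow3
    have hi0 : i = 0 := by
      by_contra hne
      have hin := el_le hA hi
      have h6 : 2 ^ 1 ≤ 2 ^ i := Nat.pow_le_pow_right (by norm_num) (by omega)
      have h7 : 2 ^ 1 * 3 ^ (b + 1) * (5 * v) ≤ 2 ^ i * 3 ^ (b + 1) * (5 * v) :=
        Nat.mul_le_mul_right _ (Nat.mul_le_mul_right _ h6)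
      have h8 : 2 ^ 1 * 3 ^ (b + 1) * (5 * v) = 30 * (3 ^ b * v) := by rw [pow_add]; ring
      omega
    subst hi0
    simpa using hi
  have k3 : 3 ^ b * (5 * v) ∈ A := by
    rcases Nat.lt_or_ge d b with hlt | hge
    · exfalso
      obtain ⟨i, hi⟩ := r2 b hrow4
      have hd0' : 2 ^ 0 * 3 ^ d * (5 * v) ∈ A := by simpa using hd0
      have hd1' : 2 ^ 1 * 3 ^ d * (5 * v) ∈ A := by simpa using hd1
      have hk2 : 2 ^ 0 * 3 ^ (b + 1) * (5 * v) ∈ A := by simpa using k2
      rcases Nat.eq_zero_or_pos i with hi0 | hi0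
      · subst hi0
        exact no_two had hw hk2 hd0' hi le_rfl (by omega) le_rfl (by omega) (Or.inr (by omega))
          (Or.inr (by omega)) (Or.inr (by omega))
      · exact no_two had hw hi hd0' hd1' (by omega) (by omega) (by omega) (by omega)
          (Or.inr (by omega)) (Or.inr (by omega)) (Or.inl (by omega))
    · have : d = b := by omega
      subst this
      exact hd0
  have hpos : 0 < 3 ^ b * v := Nat.mul_pos (by positivity) hv0
  rw [p3] at k2
  rw [p1] at k1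
  rw [p4] at k3
  refine had _ k2 _ k1 _ k3 (by omega) (by omega) (by omega) ⟨⟨5, by ring⟩, ⟨3, by ring⟩⟩

theorem E_disj {w : ℕ} (hv : v ∈ E n) (hw : w ∈ E n) : v ≠ 5 * w := by
  rintro rfl
  obtain ⟨-, b, -, h1, h2, -, -⟩ := mem_E.1 hw
  obtain ⟨hcop, c, -, h3, h4, -, -⟩ := mem_E.1 hv
  have hpos : 0 < 3 ^ c * w := Nat.mul_pos (by positivity) (by have := cop_pos hcop; omega)
  have h1' : 15 * (3 ^ b * w) ≤ n := by rw [← mul_assoc]; exact h1
  have h2' : n < 18 * (3 ^ b * w) := by rw [← mul_assoc]; exact h2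
  have h3' : 75 * (3 ^ c * w) ≤ n := by
    have : 15 * 3 ^ c * (5 * w) = 75 * (3 ^ c * w) := by ring
    omega
  have h4' : n < 90 * (3 ^ c * w) := by
    have : 18 * 3 ^ c * (5 * w) = 90 * (3 ^ c * w) := by ring
    omega
  rcases Nat.lt_or_ge b (c + 2) with h | h
  · have h5 : 3 ^ b ≤ 3 ^ (c + 1) := Nat.pow_le_pow_right (by norm_num) (by omega)
    have h6 : 3 ^ b * w ≤ 3 ^ (c + 1) * w := Nat.mul_le_mul_right _ h5
    have h7 : 3 ^ (c + 1) * w = 3 * (3 ^ c * w) := by rw [pow_succ]; ring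
    omega
  · have h5 : 3 ^ (c + 2) ≤ 3 ^ b := Nat.pow_le_pow_right (by norm_num) h
    have h6 : 3 ^ (c + 2) * w ≤ 3 ^ b * w := Nat.mul_le_mul_right _ h5
    have h7 : 3 ^ (c + 2) * w = 9 * (3 ^ c * w) := by rw [pow_add]; ring
    omega

theorem card_le (hA : A ⊆ Icc 1 n) (had : Admissible A) :
    A.card + (E n).card ≤ ∑ v ∈ C n, ((rows n v).card + J n v) := by
  have h1 : A.card = ∑ v ∈ C n, (cls A v).card := by
    unfold cls
    apply Finset.card_eq_sum_card_fiberwise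
    intro x hx
    have := Finset.mem_Icc.1 (hA hx)
    exact core_mem this.1 this.2
  set D : ℕ → ℕ := fun v => ((rows n v).card + J n v) - (cls A v).card with hD
  have h2 : ∀ v ∈ C n, (cls A v).card + D v = (rows n v).card + J n v := by
    intro v hv
    have := cls_le hA had (mem_C.1 hv).2
    simp only [hD]
    omega
  have h3 : (∑ v ∈ C n, (cls A v).card) + ∑ v ∈ C n, D v =
      ∑ v ∈ C n, ((rows n v).card + J n v) := by
    rw [← Finset.sum_add_distrib]
    exact Finset.sum_congr rfl h2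
  have hE1 : E n ⊆ C n := by
    intro v hv
    simp only [E, Finset.mem_filter] at hv
    exact mem_C.2 ⟨(Finset.mem_Icc.1 hv.1).2, hv.2.1⟩
  have hE2 : (E n).image (fun v => 5 * v) ⊆ C n := by
    intro w hw
    obtain ⟨v, hv, rfl⟩ := Finset.mem_image.1 hw
    obtain ⟨h, b, l, h1, h2, h3, h4⟩ := mem_E.1 hv
    refine mem_C.2 ⟨?_, cop_five h⟩
    have h5 : 1 ≤ 3 ^ b := Nat.one_le_iff_ne_zero.2 (by positivity)
    have h6 : 1 * v ≤ 3 ^ b * v := Nat.mul_le_mul_right _ h5
    have h1' : 15 * (3 ^ b * v) ≤ n := by rw [← mul_assoc]; exact h1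
    show 5 * v ≤ n
    omega
  have hdis : Disjoint (E n) ((E n).image (fun v => 5 * v)) := by
    rw [Finset.disjoint_left]
    intro v hv hv'
    obtain ⟨w, hw, hvw⟩ := Finset.mem_image.1 hv'
    exact E_disj hv hw hvw.symm
  have h4 : (∑ v ∈ E n, D v) + ∑ v ∈ (E n).image (fun v => 5 * v), D v ≤ ∑ v ∈ C n, D v := by
    rw [← Finset.sum_union hdis]
    exact Finset.sum_le_sum_of_subset (Finset.union_subset hE1 hE2)
  have h5 : ∑ v ∈ (E n).image (fun v => 5 * v), D v = ∑ v ∈ E n, D (5 * v) := by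
    apply Finset.sum_image
    intro x _ y _ hxy
    simpa using hxy
  have h6 : (E n).card ≤ (∑ v ∈ E n, D v) + ∑ v ∈ E n, D (5 * v) := by
    rw [← Finset.sum_add_distrib, Finset.card_eq_sum_ones]
    apply Finset.sum_le_sum
    intro v hv
    obtain ⟨h, b, l, h1, h2, h3, h4⟩ := mem_E.1 hv
    have h7 := exc_bound hA had h h1 h2 h3 h4
    simp only [hD]
    omega
  omega

/-- The number of odd `m ≤ n`, by classes. -/
theorem sum_rows (n : ℕ) : ∑ v ∈ C n, (rows n v).card = (n + 1) / 2 := by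
  have h0 : ((Icc 1 n).filter (fun m => m % 2 = 1)).card = (n + 1) / 2 := by
    induction n with
    | zero => simp
    | succ k ih =>
      have e : Icc 1 (k + 1) = insert (k + 1) (Icc 1 k) := by
        ext x
        simp only [Finset.mem_Icc, Finset.mem_insert]
        omega
      rw [e, Finset.filter_insert]
      split_ifs with h
      · rw [Finset.card_insert_of_notMem, ih]
        · omega
        · simp
      · rw [ih]; omega
  rw [← h0]
  symm
  have h1 : ∀ x ∈ (Icc 1 n).filter (fun m => m % 2 = 1), core x ∈ C n := by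
    intro x hx
    obtain ⟨h, -⟩ := Finset.mem_filter.1 hx
    have := Finset.mem_Icc.1 h
    exact core_mem this.1 this.2
  rw [Finset.card_eq_sum_card_fiberwise h1]
  apply Finset.sum_congr rfl
  intro v hv
  obtain ⟨hvn, hvc⟩ := mem_C.1 hv
  have hv0 := cop_pos hvc
  symm
  apply Finset.card_bij (fun b _ => 2 ^ 0 * 3 ^ b * v)
  · intro b hb
    rw [mem_rows hv0] at hb
    rw [Finset.mem_filter, Finset.mem_filter, Finset.mem_Icc]
    refine ⟨⟨⟨?_, ?_⟩, ?_⟩, core_rep hvc⟩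
    · exact Nat.one_le_iff_ne_zero.2 (by positivity)
    · simpa using hb
    · have h2 : ¬ 2 ∣ (2 ^ 0 * 3 ^ b * v) := by
        intro h
        rw [pow_zero, one_mul] at h
        rcases (Nat.Prime.dvd_mul Nat.prime_two).1 h with h | h
        · have := Nat.Prime.dvd_of_dvd_pow Nat.prime_two h
          norm_num at this
        · exact cop_two hvc h
      omega
  · intro b1 _ b2 _ h
    exact (rep_unique hvc hvc h).2.1
  · intro m hm
    rw [Finset.mem_filter, Finset.mem_filter, Finset.mem_Icc] at hm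
    obtain ⟨⟨⟨hm1, hmn⟩, hmo⟩, hmc⟩ := hm
    obtain ⟨i, b, w, hw, rfl⟩ := rep_exists hm1
    rw [core_rep hw] at hmc
    subst hmc
    have hi : i = 0 := by
      by_contra hne
      have : 2 ∣ 2 ^ i * 3 ^ b * w := by
        rw [mul_assoc]
        exact Dvd.dvd.mul_right (dvd_pow_self 2 hne) _
      omega
    subst hi
    refine ⟨b, ?_, rfl⟩
    rw [mem_rows hv0]
    simpa using hmn

theorem g_le (n : ℕ) : g n + (E n).card ≤ (n + 1) / 2 + ∑ v ∈ C n, J n v := by
  classical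
  have h1 : ∃ A ∈ (Icc 1 n).powerset.filter Admissible, g n = A.card := by
    unfold g
    have hne : ((Icc 1 n).powerset.filter Admissible).Nonempty := by
      refine ⟨∅, ?_⟩
      rw [Finset.mem_filter]
      refine ⟨Finset.empty_mem_powerset _, ?_⟩
      intro a ha
      simp at ha
    obtain ⟨A, hA, hAs⟩ := Finset.exists_mem_eq_sup _ hne Finset.card
    refine ⟨A, ?_, ?_⟩
    · convert hA
    · convert hAs
  obtain ⟨A, hA, hg⟩ := h1
  obtain ⟨h2, h3⟩ := Finset.mem_filter.1 hA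
  have h4 := card_le (Finset.mem_powerset.1 h2) h3
  rw [Finset.sum_add_distrib, sum_rows] at h4
  omega

end Pool.Agent.P773b84
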