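import Pool.Agent.Lib.P773b84.Own
import Pool.Agent.Lib.P773b84.Upper2

/-! The explicit set is admissible. -/

namespace Pool.Agent.P773b84

open Finset

/-- the condition for `a` -/
def condA (n a : ℕ) : Prop :=
  cond n (L n (core a)) (2 ^ L n (core a) * core a) (padicValNat 2 a) a

/-- the elements to be removed -/
def remA (n a : ℕ) : Prop :=
  a % 15 = 0 ∧ a % 2 = 1 ∧ 5 * n < 6 * a ∧ L n (core a) % 2 = 1 ∧ L n (core a / 5) % 2 = 1

open Classical in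
noncomputable def A1 (n : ℕ) : Finset ℕ := (Icc 1 n).filter (condA n)

open Classical in
noncomputable def A0 (n : ℕ) : Finset ℕ := (A1 n).filter (fun a => ¬ remA n a)

theorem mem_A1 {n a : ℕ} : a ∈ A1 n ↔ 1 ≤ a ∧ a ≤ n ∧ condA n a := by
  simp only [A1, Finset.mem_filter, Finset.mem_Icc]
  tauto

theorem mem_A0 {n a : ℕ} : a ∈ A0 n ↔ a ∈ A1 n ∧ ¬ remA n a := by
  simp only [A0, Finset.mem_filter]

theorem condA_rep {n i b v : ℕ} (hv : Nat.Coprime v 6) :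
    condA n (2 ^ i * 3 ^ b * v) ↔
      cond n (L n v) (2 ^ L n v * v) i (2 ^ i * 3 ^ b * v) := by
  unfold condA
  rw [core_rep hv, pv2 hv]

theorem rel5_of {n w : ℕ} (hw : 0 < w) (hn : 5 * w ≤ n) :
    rel5 n (L n (5 * w)) (2 ^ L n (5 * w) * (5 * w)) (L n w) (2 ^ L n w * w) := by
  obtain ⟨h1, h2⟩ := L_spec (n := n) hw (by omega)
  set l' := L n w with hl'
  rcases Nat.lt_or_ge (4 * n) (5 * (2 ^ l' * w)) with h | h
  · right
    have hl3 : 3 ≤ l' := by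
      by_contra hlt
      have h3 : 2 ^ l' ≤ 2 ^ 2 := Nat.pow_le_pow_right (by norm_num) (by omega)
      have h4 : 2 ^ l' * w ≤ 2 ^ 2 * w := Nat.mul_le_mul_right _ h3
      omega
    obtain ⟨m, hm⟩ : ∃ m, l' = m + 3 := ⟨l' - 3, by omega⟩
    rw [hm] at h h1 h2 ⊢
    have e1 : 2 ^ (m + 3) * w = 8 * (2 ^ m * w) := by rw [pow_add]; ring
    have e2 : 2 ^ (m + 3 + 1) * w = 16 * (2 ^ m * w) := by rw [pow_add, pow_add]; ring
    have e3 : 2 ^ m * (5 * w) = 5 * (2 ^ m * w) := by ring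
    have e4 : 2 ^ (m + 1) * (5 * w) = 10 * (2 ^ m * w) := by rw [pow_add]; ring
    have hL : L n (5 * w) = m := L_eq (by omega) (by omega) (by omega)
    rw [hL]
    refine ⟨h, rfl, by omega⟩
  · left
    have hl2 : 2 ≤ l' := by
      by_contra hlt
      have h3 : 2 ^ (l' + 1) ≤ 2 ^ 2 := Nat.pow_le_pow_right (by norm_num) (by omega)
      have h4 : 2 ^ (l' + 1) * w ≤ 2 ^ 2 * w := Nat.mul_le_mul_right _ h3
      omega
    obtain ⟨m, hm⟩ : ∃ m, l' = m + 2 := ⟨l' - 2, by omega⟩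
    rw [hm] at h h1 h2 ⊢
    have e1 : 2 ^ (m + 2) * w = 4 * (2 ^ m * w) := by rw [pow_add]; ring
    have e2 : 2 ^ (m + 2 + 1) * w = 8 * (2 ^ m * w) := by rw [pow_add, pow_add]; ring
    have e3 : 2 ^ m * (5 * w) = 5 * (2 ^ m * w) := by ring
    have e4 : 2 ^ (m + 1) * (5 * w) = 10 * (2 ^ m * w) := by rw [pow_add]; ring
    have hL : L n (5 * w) = m := L_eq (by omega) (by omega) (by omega)
    rw [hL]
    refine ⟨h, rfl, by omega⟩

theorem rel7_of {n w : ℕ} (hw : 0 < w) (hn : 7 * w ≤ n) :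
    rel7 n (L n (7 * w)) (2 ^ L n (7 * w) * (7 * w)) (L n w) (2 ^ L n w * w) := by
  obtain ⟨h1, h2⟩ := L_spec (n := n) hw (by omega)
  set l' := L n w with hl'
  rcases Nat.lt_or_ge (4 * n) (7 * (2 ^ l' * w)) with h | h
  · right
    have hl3 : 3 ≤ l' := by
      by_contra hlt
      have h3 : 2 ^ l' ≤ 2 ^ 2 := Nat.pow_le_pow_right (by norm_num) (by omega)
      have h4 : 2 ^ l' * w ≤ 2 ^ 2 * w := Nat.mul_le_mul_right _ h3
      omega
    obtain ⟨m, hm⟩ : ∃ m, l' = m + 3 := ⟨l' - 3, by omega⟩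
    rw [hm] at h h1 h2 ⊢
    have e1 : 2 ^ (m + 3) * w = 8 * (2 ^ m * w) := by rw [pow_add]; ring
    have e2 : 2 ^ (m + 3 + 1) * w = 16 * (2 ^ m * w) := by rw [pow_add, pow_add]; ring
    have e3 : 2 ^ m * (7 * w) = 7 * (2 ^ m * w) := by ring
    have e4 : 2 ^ (m + 1) * (7 * w) = 14 * (2 ^ m * w) := by rw [pow_add]; ring
    have hL : L n (7 * w) = m := L_eq (by omega) (by omega) (by omega)
    rw [hL]
    refine ⟨h, rfl, by omega⟩
  · left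
    have hl2 : 2 ≤ l' := by
      by_contra hlt
      have h3 : 2 ^ (l' + 1) ≤ 2 ^ 2 := Nat.pow_le_pow_right (by norm_num) (by omega)
      have h4 : 2 ^ (l' + 1) * w ≤ 2 ^ 2 * w := Nat.mul_le_mul_right _ h3
      omega
    obtain ⟨m, hm⟩ : ∃ m, l' = m + 2 := ⟨l' - 2, by omega⟩
    rw [hm] at h h1 h2 ⊢
    have e1 : 2 ^ (m + 2) * w = 4 * (2 ^ m * w) := by rw [pow_add]; ring
    have e2 : 2 ^ (m + 2 + 1) * w = 8 * (2 ^ m * w) := by rw [pow_add, pow_add]; ring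
    have e3 : 2 ^ m * (7 * w) = 7 * (2 ^ m * w) := by ring
    have e4 : 2 ^ (m + 1) * (7 * w) = 14 * (2 ^ m * w) := by rw [pow_add]; ring
    have hL : L n (7 * w) = m := L_eq (by omega) (by omega) (by omega)
    rw [hL]
    refine ⟨h, rfl, by omega⟩

theorem cop_seven {v : ℕ} (hv : Nat.Coprime v 6) : Nat.Coprime (7 * v) 6 := by
  apply Nat.Coprime.mul_left _ hv
  norm_num

/-- what `z = k x` gives, `x` chosen, `2 ≤ k ≤ 7` -/
theorem desc {n i b v k x : ℕ} (hv : Nat.Coprime v 6) (hzn : 2 ^ i * 3 ^ b * v ≤ n)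
    (hx : x ∈ A1 n) (hk : 2 ≤ k) (hk7 : k ≤ 7) (h : 2 ^ i * 3 ^ b * v = k * x) :
    (k = 2 ∧ ∃ j, i = j + 1 ∧ cond n (L n v) (2 ^ L n v * v) j x) ∨
    (k = 3 ∧ cond n (L n v) (2 ^ L n v * v) i x) ∨
    (k = 4 ∧ ∃ j, i = j + 2 ∧ cond n (L n v) (2 ^ L n v * v) j x) ∨
    (k = 5 ∧ ∃ l' q', rel5 n (L n v) (2 ^ L n v * v) l' q' ∧ q' ≤ n ∧ n < 2 * q' ∧
      cond n l' q' i x ∧ l' = L n (v / 5)) ∨
    (k = 6 ∧ ∃ j, i = j + 1 ∧ cond n (L n v) (2 ^ L n v * v) j x) ∨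
    (k = 7 ∧ ∃ l' q', rel7 n (L n v) (2 ^ L n v * v) l' q' ∧ q' ≤ n ∧ n < 2 * q' ∧
      cond n l' q' i x) := by
  obtain ⟨hx1, hxn, hxc⟩ := mem_A1.1 hx
  obtain ⟨j, c, w, hw, rfl⟩ := rep_exists hx1
  rw [condA_rep hw] at hxc
  have hw0 := cop_pos hw
  have hv0 := cop_pos hv
  have hwn : w ≤ n := by
    have h1 : 1 ≤ 2 ^ j * 3 ^ c := Nat.one_le_iff_ne_zero.2 (by positivity)
    have h2 : 1 * w ≤ 2 ^ j * 3 ^ c * w := Nat.mul_le_mul_right _ h1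
    omega
  have hvn : v ≤ n := by
    have h1 : 1 ≤ 2 ^ i * 3 ^ b := Nat.one_le_iff_ne_zero.2 (by positivity)
    have h2 : 1 * v ≤ 2 ^ i * 3 ^ b * v := Nat.mul_le_mul_right _ h1
    omega
  obtain ⟨s1, s2⟩ := L_spec hw0 hwn
  have s2' : n < 2 * (2 ^ L n w * w) := by
    have : 2 ^ (L n w + 1) * w = 2 * (2 ^ L n w * w) := by rw [pow_succ]; ring
    omega
  interval_cases k
  · left
    have h' : 2 ^ i * 3 ^ b * v = 2 ^ (j + 1) * 3 ^ c * w := by rw [h, pow_succ]; ring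
    obtain ⟨rfl, rfl, rfl⟩ := rep_unique hv hw h'
    exact ⟨rfl, j, rfl, hxc⟩
  · right; left
    have h' : 2 ^ i * 3 ^ b * v = 2 ^ j * 3 ^ (c + 1) * w := by rw [h, pow_succ]; ring
    obtain ⟨rfl, rfl, rfl⟩ := rep_unique hv hw h'
    exact ⟨rfl, hxc⟩
  · right; right; left
    have h' : 2 ^ i * 3 ^ b * v = 2 ^ (j + 2) * 3 ^ c * w := by rw [h, pow_add]; ring
    obtain ⟨rfl, rfl, rfl⟩ := rep_unique hv hw h'
    exact ⟨rfl, j, rfl, hxc⟩
  · right; right; right; left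
    have h' : 2 ^ i * 3 ^ b * v = 2 ^ j * 3 ^ c * (5 * w) := by rw [h]; ring
    obtain ⟨rfl, rfl, rfl⟩ := rep_unique hv (cop_five hw) h'
    refine ⟨rfl, L n w, 2 ^ L n w * w, rel5_of hw0 hvn, s1, s2', hxc, ?_⟩
    rw [Nat.mul_div_cancel_left _ (by norm_num)]
  · right; right; right; right; left
    have h' : 2 ^ i * 3 ^ b * v = 2 ^ (j + 1) * 3 ^ (c + 1) * w := by
      rw [h, pow_succ, pow_succ]; ring
    obtain ⟨rfl, rfl, rfl⟩ := rep_unique hv hw h'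
    exact ⟨rfl, j, rfl, hxc⟩
  · right; right; right; right; right
    have h' : 2 ^ i * 3 ^ b * v = 2 ^ j * 3 ^ c * (7 * w) := by rw [h]; ring
    obtain ⟨rfl, rfl, rfl⟩ := rep_unique hv (cop_seven hw) h'
    exact ⟨rfl, L n w, 2 ^ L n w * w, rel7_of hw0 hvn, s1, s2', hxc⟩

theorem adm_aux {n z x y k m : ℕ} (hz : z ∈ A0 n) (hx : x ∈ A0 n) (hy : y ∈ A0 n)
    (hk : 2 ≤ k) (hkm : k < m) (hm : m ≤ 7) (h1 : z = k * x) (h2 : z = m * y) : False := by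
  obtain ⟨hz1, hzr⟩ := mem_A0.1 hz
  obtain ⟨hx1, -⟩ := mem_A0.1 hx
  obtain ⟨hy1, -⟩ := mem_A0.1 hy
  obtain ⟨hz0, hzn, hzc⟩ := mem_A1.1 hz1
  obtain ⟨i, b, v, hv, rfl⟩ := rep_exists hz0
  rw [condA_rep hv] at hzc
  have hv0 := cop_pos hv
  have hvn : v ≤ n := by
    have h3 : 1 ≤ 2 ^ i * 3 ^ b := Nat.one_le_iff_ne_zero.2 (by positivity)
    have h4 : 1 * v ≤ 2 ^ i * 3 ^ b * v := Nat.mul_le_mul_right _ h3
    omega
  obtain ⟨s1, s2⟩ := L_spec hv0 hvn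
  have s2' : n < 2 * (2 ^ L n v * v) := by
    have : 2 ^ (L n v + 1) * v = 2 * (2 ^ L n v * v) := by rw [pow_succ]; ring
    omega
  have dx := desc hv hzn hx1 hk (by omega) h1
  have dy := desc hv hzn hy1 (by omega) hm h2
  unfold remA at hzr
  rw [core_rep hv] at hzr
  generalize hq : 2 ^ L n v * v = q at *
  generalize hz' : 2 ^ i * 3 ^ b * v = z at *
  rcases dx with ⟨rfl, j, rfl, cx⟩ | ⟨rfl, cx⟩ | ⟨rfl, j, rfl, cx⟩ | ⟨rfl, l', q', r, t1, t2, cx, e5⟩ |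
    ⟨rfl, j, rfl, cx⟩ | ⟨rfl, l', q', r, t1, t2, cx⟩
  · -- k = 2
    rcases dy with ⟨rfl, j', e, cy⟩ | ⟨rfl, cy⟩ | ⟨rfl, j', e, cy⟩ |
      ⟨rfl, l', q', r, t1, t2, cy, e5⟩ | ⟨rfl, j', e, cy⟩ | ⟨rfl, l', q', r, t1, t2, cy⟩
    · omega
    · exact own_2 hzn hzc cx h1 cy (Or.inl ⟨h2, rfl⟩)
    · exact own_2 hzn hzc cx h1 cy (Or.inr (Or.inl ⟨h2, by omega⟩))
    · have := cross5 hzn hzc cy h2 r t1 t2 s1 s2'
      omega
    · exact own_2 hzn hzc cx h1 cy (Or.inr (Or.inr ⟨h2, by omega⟩))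
    · exact cross7 hzn hzc cy h2 r t1 t2 s1 s2'
  · -- k = 3
    rcases dy with ⟨rfl, j', e, cy⟩ | ⟨rfl, cy⟩ | ⟨rfl, j', e, cy⟩ |
      ⟨rfl, l', q', r, t1, t2, cy, e5⟩ | ⟨rfl, j', e, cy⟩ | ⟨rfl, l', q', r, t1, t2, cy⟩
    · omega
    · omega
    · exact own_3 hzn hzc cx h1 cy (Or.inl ⟨h2, by omega⟩)
    · obtain ⟨e0, e6, e8⟩ := cross5 hzn hzc cy h2 r t1 t2 s1 s2'
      subst e0
      rcases e8 with ⟨e8, e9⟩ | ⟨e8, e9, e10⟩
      · exact cross53 hzn cx h1 e6 e8 e9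
      · apply hzr
        refine ⟨by omega, ?_, e6, e9, by rw [← e5]; exact e10⟩
        have : ¬ 2 ∣ z := by
          rw [← hz', pow_zero, one_mul]
          intro hd
          rcases (Nat.Prime.dvd_mul Nat.prime_two).1 hd with hd | hd
          · have := Nat.Prime.dvd_of_dvd_pow Nat.prime_two hd
            norm_num at this
          · exact cop_two hv hd
        omega
    · exact own_3 hzn hzc cx h1 cy (Or.inr ⟨h2, by omega⟩)
    · exact cross7 hzn hzc cy h2 r t1 t2 s1 s2'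
  · -- k = 4
    rcases dy with ⟨rfl, j', e, cy⟩ | ⟨rfl, cy⟩ | ⟨rfl, j', e, cy⟩ |
      ⟨rfl, l', q', r, t1, t2, cy, e5⟩ | ⟨rfl, j', e, cy⟩ | ⟨rfl, l', q', r, t1, t2, cy⟩
    · omega
    · omega
    · omega
    · have := cross5 hzn hzc cy h2 r t1 t2 s1 s2'
      omega
    · have e' : j' = j + 1 := by omega
      subst e'
      exact own_46 hzn hzc cx h1 cy h2
    · exact cross7 hzn hzc cy h2 r t1 t2 s1 s2'
  · -- k = 5
    have hc := cross5 hzn hzc cx h1 r t1 t2 s1 s2'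
    rcases dy with ⟨rfl, j', e, cy⟩ | ⟨rfl, cy⟩ | ⟨rfl, j', e, cy⟩ |
      ⟨rfl, l'', q'', r', t1', t2', cy, e5'⟩ | ⟨rfl, j', e, cy⟩ | ⟨rfl, l'', q'', r', t1', t2', cy⟩
    · omega
    · omega
    · omega
    · omega
    · omega
    · exact cross7 hzn hzc cy h2 r' t1' t2' s1 s2'
  · -- k = 6
    rcases dy with ⟨rfl, j', e, cy⟩ | ⟨rfl, cy⟩ | ⟨rfl, j', e, cy⟩ |
      ⟨rfl, l', q', r, t1, t2, cy, e5⟩ | ⟨rfl, j', e, cy⟩ | ⟨rfl, l', q', r, t1, t2, cy⟩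
    · omega
    · omega
    · omega
    · omega
    · omega
    · exact cross7 hzn hzc cy h2 r t1 t2 s1 s2'
  · omega

theorem A0_adm (n : ℕ) : Admissible (A0 n) := by
  intro z hz x hx y hy hzx hzy hxy hd
  obtain ⟨⟨k, hk⟩, ⟨m, hm⟩⟩ := hd
  have hzn := mem_A1.1 (mem_A0.1 hz).1
  have hxn := mem_A1.1 (mem_A0.1 hx).1
  have hyn := mem_A1.1 (mem_A0.1 hy).1
  have bx := cond_bound hxn.2.2
  have b_y := cond_bound hyn.2.2
  have hk2 : 2 ≤ k := by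
    by_contra hlt
    interval_cases k
    · omega
    · apply hzx; rw [hk, mul_one]
  have hm2 : 2 ≤ m := by
    by_contra hlt
    interval_cases m
    · omega
    · apply hzy; rw [hm, mul_one]
  have hk7 : k ≤ 7 := by
    by_contra hlt
    have : x * 8 ≤ x * k := Nat.mul_le_mul_left _ (by omega)
    omega
  have hm7 : m ≤ 7 := by
    by_contra hlt
    have : y * 8 ≤ y * m := Nat.mul_le_mul_left _ (by omega)
    omega
  rcases lt_trichotomy k m with h | h | h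
  · exact adm_aux hz hx hy hk2 h hm7 (by rw [hk]; ring) (by rw [hm]; ring)
  · subst h
    apply hxy
    have : x * k = y * k := by rw [← hk, ← hm]
    exact Nat.eq_of_mul_eq_mul_right (by omega) this
  · exact adm_aux hz hy hx hm2 h hk7 (by rw [hm]; ring) (by rw [hk]; ring)

end Pool.Agent.P773b84
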