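import Pool.Agent.Lib.P773b84.Lower

/-! The limit of `g n / n`. -/

namespace Pool.Agent.P773b84

open Finset Filter Topology

/-- `v ≤ n` coprime to `6` with `2·4^j·v ≤ n` -/
def S (n j : ℕ) : Finset ℕ := (Icc 1 n).filter (fun v => Nat.Coprime v 6 ∧ 2 * 4 ^ j * v ≤ n)

/-- `v ≤ n` coprime to `6` with `lo·v ≤ n < hi·v` -/
def W (n lo hi : ℕ) : Finset ℕ :=
  (Icc 1 n).filter (fun v => Nat.Coprime v 6 ∧ lo * v ≤ n ∧ n < hi * v)

/-- number of `v ≤ y` coprime to `6` -/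
def c6 (y : ℕ) : ℕ := ((Icc 1 y).filter (fun v => Nat.Coprime v 6)).card

theorem cop_iff (m : ℕ) : Nat.Coprime m 6 ↔ (m % 6 = 1 ∨ m % 6 = 5) := by
  constructor
  · intro h
    have h2 := cop_two h
    have h3 := cop_three h
    omega
  · intro h
    apply cop_of <;> omega

theorem c6_eq (y : ℕ) : c6 y = (y + 5) / 6 + (y + 1) / 6 := by
  induction y with
  | zero => decide
  | succ k ih =>
    have e : Icc 1 (k + 1) = insert (k + 1) (Icc 1 k) := by
      ext x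
      simp only [Finset.mem_Icc, Finset.mem_insert]
      omega
    unfold c6 at ih ⊢
    rw [e, Finset.filter_insert]
    split_ifs with h
    · rw [Finset.card_insert_of_notMem, ih]
      · rw [cop_iff] at h
        omega
      · simp
    · rw [cop_iff] at h
      rw [ih]; omega

theorem c6_bound (y : ℕ) : |(c6 y : ℝ) - y / 3| ≤ 1 := by
  rw [c6_eq]
  have h1 : 3 * ((y + 5) / 6 + (y + 1) / 6) ≤ y + 3 := by omega
  have h2 : y ≤ 3 * ((y + 5) / 6 + (y + 1) / 6) + 3 := by omega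
  have h1' : (3 : ℝ) * (((y + 5) / 6 + (y + 1) / 6 : ℕ) : ℝ) ≤ y + 3 := by exact_mod_cast h1
  have h2' : (y : ℝ) ≤ 3 * (((y + 5) / 6 + (y + 1) / 6 : ℕ) : ℝ) + 3 := by exact_mod_cast h2
  rw [abs_le]
  constructor <;> linarith

/-- `#{v : coprime to 6, a v ≤ n} = c6 (n / a)` -/
theorem card_le_eq {a : ℕ} (ha : 0 < a) (n : ℕ) :
    ((Icc 1 n).filter (fun v => Nat.Coprime v 6 ∧ a * v ≤ n)).card = c6 (n / a) := by
  unfold c6
  congr 1
  ext v
  simp only [Finset.mem_filter, Finset.mem_Icc]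
  constructor
  · rintro ⟨⟨h1, h2⟩, h3, h4⟩
    refine ⟨⟨h1, ?_⟩, h3⟩
    rw [Nat.le_div_iff_mul_le ha, mul_comm]
    exact h4
  · rintro ⟨⟨h1, h2⟩, h3⟩
    rw [Nat.le_div_iff_mul_le ha, mul_comm] at h2
    refine ⟨⟨h1, ?_⟩, h3, h2⟩
    have : 1 * v ≤ a * v := Nat.mul_le_mul_right _ ha
    omega

theorem div_bound {a : ℕ} (ha : 0 < a) (n : ℕ) : |((n / a : ℕ) : ℝ) - n / a| ≤ 1 := by
  have h1 : n / a * a ≤ n := Nat.div_mul_le_self n a
  have h2 : n < (n / a + 1) * a := by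
    have := Nat.lt_div_mul_add (a := n) ha
    calc n < n / a * a + a := this
      _ = (n / a + 1) * a := by ring
  have ha' : (0 : ℝ) < a := by exact_mod_cast ha
  have h1' : ((n / a : ℕ) : ℝ) * a ≤ n := by exact_mod_cast h1
  have h2' : (n : ℝ) < (((n / a : ℕ) : ℝ) + 1) * a := by exact_mod_cast h2
  have h3 : ((n / a : ℕ) : ℝ) ≤ n / a := (le_div_iff₀ ha').2 h1'
  have h4 : (n : ℝ) / a < ((n / a : ℕ) : ℝ) + 1 := (div_lt_iff₀ ha').2 h2'
  rw [abs_le]
  constructor <;> linarith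

theorem card_le_bound {a : ℕ} (ha : 0 < a) (n : ℕ) :
    |((((Icc 1 n).filter (fun v => Nat.Coprime v 6 ∧ a * v ≤ n)).card : ℕ) : ℝ)
      - n * (1 / (3 * a))| ≤ 2 := by
  rw [card_le_eq ha]
  have h1 := abs_le.1 (c6_bound (n / a))
  have h2 := abs_le.1 (div_bound ha n)
  have ha' : (0 : ℝ) < a := by exact_mod_cast ha
  have h3 : (n : ℝ) * (1 / (3 * a)) = (n / a) / 3 := by field_simp
  rw [h3, abs_le]
  constructor <;> linarith [h1.1, h1.2, h2.1, h2.2]

theorem W_card {lo hi n : ℕ} (h : lo ≤ hi) :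
    (W n lo hi).card + ((Icc 1 n).filter (fun v => Nat.Coprime v 6 ∧ hi * v ≤ n)).card =
      ((Icc 1 n).filter (fun v => Nat.Coprime v 6 ∧ lo * v ≤ n)).card := by
  unfold W
  rw [← Finset.card_union_of_disjoint]
  · congr 1
    ext v
    simp only [Finset.mem_union, Finset.mem_filter, Finset.mem_Icc]
    constructor
    · rintro (⟨h1, h2, h3, h4⟩ | ⟨h1, h2, h3⟩)
      · exact ⟨h1, h2, h3⟩
      · exact ⟨h1, h2, le_trans (Nat.mul_le_mul_right _ h) h3⟩
    · rintro ⟨h1, h2, h3⟩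
      rcases Nat.lt_or_ge n (hi * v) with h4 | h4
      · exact Or.inl ⟨h1, h2, h3, h4⟩
      · exact Or.inr ⟨h1, h2, h4⟩
  · rw [Finset.disjoint_left]
    intro v hv hv'
    simp only [Finset.mem_filter] at hv hv'
    omega

/-- the contribution of a pair of intervals -/
noncomputable def M (p : ℕ × ℕ) : ℝ :=
  max 0 (1 / max (15 * 3 ^ p.1) (10 * 4 ^ p.2) - 1 / min (18 * 3 ^ p.1) (16 * 4 ^ p.2))

/-- lower end -/
def lo (p : ℕ × ℕ) : ℕ := max (15 * 3 ^ p.1) (10 * 4 ^ p.2)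
/-- upper end -/
def hi (p : ℕ × ℕ) : ℕ := min (18 * 3 ^ p.1) (16 * 4 ^ p.2)

theorem lo_pos (p : ℕ × ℕ) : 0 < lo p := by
  unfold lo
  exact lt_max_of_lt_left (by positivity)

theorem hi_pos (p : ℕ × ℕ) : 0 < hi p := by
  unfold hi
  exact lt_min (by positivity) (by positivity)

theorem M_eq (p : ℕ × ℕ) : M p = max 0 (1 / (lo p : ℝ) - 1 / (hi p : ℝ)) := by
  unfold M lo hi
  push_cast
  rfl

theorem M_of_le {p : ℕ × ℕ} (h : hi p ≤ lo p) : M p = 0 := by
  rw [M_eq]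
  apply max_eq_left
  have h1 : (0 : ℝ) < hi p := by exact_mod_cast hi_pos p
  have h2 : (hi p : ℝ) ≤ lo p := by exact_mod_cast h
  have := one_div_le_one_div_of_le h1 h2
  linarith

theorem M_of_ge {p : ℕ × ℕ} (h : lo p ≤ hi p) : M p = 1 / (lo p : ℝ) - 1 / (hi p : ℝ) := by
  rw [M_eq]
  apply max_eq_right
  have h1 : (0 : ℝ) < lo p := by exact_mod_cast lo_pos p
  have h2 : (lo p : ℝ) ≤ hi p := by exact_mod_cast h
  have := one_div_le_one_div_of_le h1 h2
  linarith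

theorem M_nonneg (p : ℕ × ℕ) : 0 ≤ M p := le_max_left _ _

theorem W_empty {lo hi n : ℕ} (h : hi ≤ lo) : (W n lo hi).card = 0 := by
  rw [Finset.card_eq_zero]
  unfold W
  rw [Finset.filter_eq_empty_iff]
  intro v _ hv
  have := Nat.mul_le_mul_right v h
  omega

theorem W_bound (n : ℕ) (p : ℕ × ℕ) : |((W n (lo p) (hi p)).card : ℝ) - n * (M p / 3)| ≤ 4 := by
  rcases le_total (lo p) (hi p) with h | h
  · have h1 := W_card (n := n) h
    have h2 := abs_le.1 (card_le_bound (lo_pos p) n)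
    have h3 := abs_le.1 (card_le_bound (hi_pos p) n)
    have h4 : ((W n (lo p) (hi p)).card : ℝ) +
        ((((Icc 1 n).filter (fun v => Nat.Coprime v 6 ∧ hi p * v ≤ n)).card : ℕ) : ℝ) =
        ((((Icc 1 n).filter (fun v => Nat.Coprime v 6 ∧ lo p * v ≤ n)).card : ℕ) : ℝ) := by
      exact_mod_cast h1
    have h5 : (n : ℝ) * (M p / 3) = n * (1 / (3 * lo p)) - n * (1 / (3 * hi p)) := by
      rw [M_of_ge h]
      have := lo_pos p
      have := hi_pos p
      field_simp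
    rw [h5, abs_le]
    constructor <;> linarith [h2.1, h2.2, h3.1, h3.2]
  · rw [W_empty h, M_of_le h]
    norm_num

theorem tendsto_div_of_bound {f : ℕ → ℝ} {a K : ℝ} (h : ∀ n : ℕ, |f n - n * a| ≤ K) :
    Tendsto (fun n : ℕ => f n / n) atTop (𝓝 a) := by
  have h1 : Tendsto (fun n : ℕ => K / (n : ℝ)) atTop (𝓝 0) :=
    tendsto_const_div_atTop_nhds_zero_nat K
  rw [tendsto_iff_norm_sub_tendsto_zero]
  refine squeeze_zero' (Eventually.of_forall fun n => norm_nonneg _) ?_ h1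
  filter_upwards [eventually_gt_atTop 0] with n hn
  have hn' : (0 : ℝ) < n := by exact_mod_cast hn
  rw [Real.norm_eq_abs]
  have e : f n / n - a = (f n - n * a) / n := by field_simp
  rw [e, abs_div, abs_of_pos hn']
  exact div_le_div_of_nonneg_right (h n) hn'.le

end Pool.Agent.P773b84
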