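import Pool.Agent.Lib.P773b84.Asym

/-! The limit of `g n / n`, continued. -/

namespace Pool.Agent.P773b84

open Finset Filter Topology

theorem J_card {n v : ℕ} (hv : Nat.Coprime v 6) (hvn : v ≤ n) :
    J n v = ((range n).filter (fun j => 2 * 4 ^ j * v ≤ n)).card := by
  have hv0 := cop_pos hv
  obtain ⟨s1, s2⟩ := L_spec hv0 hvn
  have e : ((range n).filter (fun j => 2 * 4 ^ j * v ≤ n)) = range (J n v) := by
    ext j
    rw [Finset.mem_filter, Finset.mem_range, Finset.mem_range]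
    have f0 : (2 : ℕ) ^ (2 * j + 1) = 2 * 4 ^ j := by rw [pow_succ, pow_mul]; norm_num; ring
    have hJ : J n v = (L n v + 1) / 2 := rfl
    constructor
    · rintro ⟨-, h⟩
      rw [← f0] at h
      have h2 : 2 ^ (2 * j + 1) * v < 2 ^ (L n v + 1) * v := lt_of_le_of_lt h s2
      have h3 : 2 ^ (2 * j + 1) < 2 ^ (L n v + 1) := lt_of_mul_lt_mul_right h2 (Nat.zero_le _)
      have h4 := (Nat.pow_lt_pow_iff_right (by norm_num : 1 < 2)).1 h3
      omega
    · intro h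
      have h1 : 2 * j + 1 ≤ L n v := by omega
      have h2 : 2 ^ (2 * j + 1) ≤ 2 ^ L n v := Nat.pow_le_pow_right (by norm_num) h1
      have h3 : 2 ^ (2 * j + 1) * v ≤ 2 ^ L n v * v := Nat.mul_le_mul_right _ h2
      rw [f0] at h3
      refine ⟨?_, by omega⟩
      have h4 : j < 4 ^ j := Nat.lt_pow_self (by norm_num)
      have h5 : 1 * 1 ≤ 4 ^ j * v := Nat.mul_le_mul (Nat.one_le_iff_ne_zero.2 (by positivity)) hv0
      have h6 : 4 ^ j * 1 ≤ 4 ^ j * v := Nat.mul_le_mul_left _ hv0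
      have h7 : 2 * 4 ^ j * v = 2 * (4 ^ j * v) := by ring
      omega
  rw [e, Finset.card_range]

theorem sum_J (n : ℕ) : ∑ v ∈ C n, J n v = ∑ j ∈ range n, (S n j).card := by
  have h1 : ∑ v ∈ C n, J n v =
      ∑ v ∈ C n, ∑ j ∈ range n, (if 2 * 4 ^ j * v ≤ n then 1 else 0) := by
    apply Finset.sum_congr rfl
    intro v hv
    obtain ⟨h, h'⟩ := mem_C.1 hv
    rw [J_card h' h, Finset.card_filter]
  rw [h1, Finset.sum_comm]
  apply Finset.sum_congr rfl
  intro j _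
  rw [← Finset.card_filter]
  congr 1
  unfold C S
  rw [Finset.filter_filter]

theorem g_formula (n : ℕ) :
    g n + (E n).card = (n + 1) / 2 + ∑ j ∈ range n, (S n j).card := by
  rw [g_exact, sum_J]

theorem mem_W {n v : ℕ} {p : ℕ × ℕ} : v ∈ W n (lo p) (hi p) ↔ 1 ≤ v ∧ v ≤ n ∧
    Nat.Coprime v 6 ∧ 15 * 3 ^ p.1 * v ≤ n ∧ n < 18 * 3 ^ p.1 * v ∧ 10 * 4 ^ p.2 * v ≤ n ∧
      n < 16 * 4 ^ p.2 * v := by
  unfold W lo hi
  simp only [Finset.mem_filter, Finset.mem_Icc]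
  have h1 : max (15 * 3 ^ p.1) (10 * 4 ^ p.2) * v ≤ n ↔
      15 * 3 ^ p.1 * v ≤ n ∧ 10 * 4 ^ p.2 * v ≤ n := by
    rcases le_total (15 * 3 ^ p.1) (10 * 4 ^ p.2) with h | h
    · rw [max_eq_right h]
      have := Nat.mul_le_mul_right v h
      omega
    · rw [max_eq_left h]
      have := Nat.mul_le_mul_right v h
      omega
  have h2 : n < min (18 * 3 ^ p.1) (16 * 4 ^ p.2) * v ↔
      n < 18 * 3 ^ p.1 * v ∧ n < 16 * 4 ^ p.2 * v := by
    rcases le_total (18 * 3 ^ p.1) (16 * 4 ^ p.2) with h | h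
    · rw [min_eq_left h]
      have := Nat.mul_le_mul_right v h
      omega
    · rw [min_eq_right h]
      have := Nat.mul_le_mul_right v h
      omega
  rw [h1, h2]
  tauto

theorem pow_lt_of {B C D x y : ℕ} {n v : ℕ} (hv : 0 < v) (h1 : C * B ^ x * v ≤ n)
    (h2 : n < D * B ^ y * v) (hBC : D ≤ B * C) : x ≤ y := by
  by_contra h
  have hB : 0 < B := by
    rcases Nat.eq_zero_or_pos B with h0 | h0
    · subst h0
      rw [Nat.zero_mul] at hBC
      have : D = 0 := by omega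
      subst this
      simp at h2
    · exact h0
  have h3 : B ^ (y + 1) ≤ B ^ x := Nat.pow_le_pow_right hB (by omega)
  have h4 : C * B ^ (y + 1) * v ≤ C * B ^ x * v :=
    Nat.mul_le_mul_right _ (Nat.mul_le_mul_left _ h3)
  have h5 : C * B ^ (y + 1) * v = (B * C) * B ^ y * v := by rw [pow_succ]; ring
  have h6 : D * B ^ y * v ≤ (B * C) * B ^ y * v :=
    Nat.mul_le_mul_right _ (Nat.mul_le_mul_right _ hBC)
  omega

theorem W_disj {n : ℕ} {p q : ℕ × ℕ} (hpq : p ≠ q) :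
    Disjoint (W n (lo p) (hi p)) (W n (lo q) (hi q)) := by
  rw [Finset.disjoint_left]
  intro v hp hq
  apply hpq
  obtain ⟨hv, -, -, a1, a2, a3, a4⟩ := mem_W.1 hp
  obtain ⟨-, -, -, b1, b2, b3, b4⟩ := mem_W.1 hq
  have c1 := pow_lt_of (B := 3) hv a1 b2 (by norm_num)
  have c2 := pow_lt_of (B := 3) hv b1 a2 (by norm_num)
  have c3 := pow_lt_of (B := 4) hv a3 b4 (by norm_num)
  have c4 := pow_lt_of (B := 4) hv b3 a4 (by norm_num)
  exact Prod.ext (le_antisymm c1 c2) (le_antisymm c3 c4)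

theorem W_zero {n : ℕ} {p : ℕ × ℕ} (h : p ∉ range n ×ˢ range n) :
    (W n (lo p) (hi p)).card = 0 := by
  rw [Finset.card_eq_zero, Finset.eq_empty_iff_forall_notMem]
  intro v hv
  obtain ⟨hv1, -, -, a1, -, a3, -⟩ := mem_W.1 hv
  apply h
  rw [Finset.mem_product, Finset.mem_range, Finset.mem_range]
  have h1 : p.1 < 3 ^ p.1 := Nat.lt_pow_self (by norm_num)
  have h2 : p.2 < 4 ^ p.2 := Nat.lt_pow_self (by norm_num)
  have h3 : 15 * 3 ^ p.1 * 1 ≤ 15 * 3 ^ p.1 * v := Nat.mul_le_mul_left _ hv1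
  have h4 : 10 * 4 ^ p.2 * 1 ≤ 10 * 4 ^ p.2 * v := Nat.mul_le_mul_left _ hv1
  omega

theorem E_card (n : ℕ) : (E n).card = ∑ p ∈ range n ×ˢ range n, (W n (lo p) (hi p)).card := by
  rw [← Finset.card_biUnion]
  · congr 1
    ext v
    rw [Finset.mem_biUnion, mem_E]
    constructor
    · rintro ⟨h, b, l, h1, h2, h3, h4⟩
      have hvn : v ≤ n := by
        have h5 : 1 ≤ 15 * 3 ^ b := Nat.one_le_iff_ne_zero.2 (by positivity)
        have h6 : 1 * v ≤ 15 * 3 ^ b * v := Nat.mul_le_mul_right _ h5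
        omega
      have hm : v ∈ W n (lo (b, l)) (hi (b, l)) := mem_W.2 ⟨cop_pos h, hvn, h, h1, h2, h3, h4⟩
      refine ⟨(b, l), ?_, hm⟩
      by_contra hcon
      have := W_zero (n := n) hcon
      rw [Finset.card_eq_zero] at this
      rw [this] at hm
      simp at hm
    · rintro ⟨p, -, hp⟩
      obtain ⟨-, -, h, h1, h2, h3, h4⟩ := mem_W.1 hp
      exact ⟨h, p.1, p.2, h1, h2, h3, h4⟩
  · intro p _ q _ hpq
    exact W_disj hpq

theorem E_tsum (n : ℕ) : ((E n).card : ℝ) / n = ∑' p : ℕ × ℕ, ((W n (lo p) (hi p)).card : ℝ) / n := by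
  rw [tsum_eq_sum (s := range n ×ˢ range n)]
  · rw [E_card, ← Finset.sum_div]
    push_cast
    rfl
  · intro p hp
    rw [W_zero hp]
    simp

theorem c6_le (y : ℕ) : c6 y ≤ y := by
  rw [c6_eq]; omega

theorem card_div_le {a : ℕ} (ha : 0 < a) (n : ℕ) :
    ((((Icc 1 n).filter (fun v => Nat.Coprime v 6 ∧ a * v ≤ n)).card : ℕ) : ℝ) / n ≤ 1 / a := by
  rw [card_le_eq ha]
  rcases Nat.eq_zero_or_pos n with h0 | h0
  · subst h0; simp
  have hn : (0 : ℝ) < n := by exact_mod_cast h0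
  have ha' : (0 : ℝ) < a := by exact_mod_cast ha
  rw [div_le_div_iff₀ hn ha', one_mul]
  have h1 : c6 (n / a) * a ≤ n := le_trans (Nat.mul_le_mul_right _ (c6_le _)) (Nat.div_mul_le_self n a)
  exact_mod_cast h1

theorem W_le_lo (n : ℕ) (p : ℕ × ℕ) : ((W n (lo p) (hi p)).card : ℝ) / n ≤ 1 / (lo p) := by
  refine le_trans ?_ (card_div_le (lo_pos p) n)
  apply div_le_div_of_nonneg_right _ (Nat.cast_nonneg n)
  have : (W n (lo p) (hi p)).card ≤
      ((Icc 1 n).filter (fun v => Nat.Coprime v 6 ∧ lo p * v ≤ n)).card := by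
    apply Finset.card_le_card
    intro v hv
    unfold W at hv
    rw [Finset.mem_filter] at hv ⊢
    exact ⟨hv.1, hv.2.1, hv.2.2.1⟩
  exact_mod_cast this

theorem le_of_lo_lt_hi {p : ℕ × ℕ} (h : lo p < hi p) : p.2 ≤ p.1 := by
  have h1 : 10 * 4 ^ p.2 ≤ lo p := le_max_right _ _
  have h2 : hi p ≤ 18 * 3 ^ p.1 := min_le_left _ _
  by_contra hcon
  have h3 : 4 ^ (p.1 + 1) ≤ 4 ^ p.2 := Nat.pow_le_pow_right (by norm_num) (by omega)
  have h4 : 4 ^ (p.1 + 1) = 4 * 4 ^ p.1 := by rw [pow_succ]; ring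
  have h5 : 3 ^ p.1 ≤ 4 ^ p.1 := Nat.pow_le_pow_left (by norm_num) _
  omega

theorem one_div_lo_le {p : ℕ × ℕ} (h : lo p < hi p) :
    1 / (lo p : ℝ) ≤ (2 / 3) ^ p.1 * (1 / 2) ^ p.2 := by
  have h1 : 15 * 3 ^ p.1 ≤ lo p := le_max_left _ _
  have h2 := le_of_lo_lt_hi h
  have h3 : (3 : ℝ) ^ p.1 ≤ lo p := by
    have : 3 ^ p.1 ≤ lo p := by omega
    exact_mod_cast this
  calc 1 / (lo p : ℝ) ≤ 1 / 3 ^ p.1 := one_div_le_one_div_of_le (by positivity) h3
    _ = (2 / 3) ^ p.1 * (1 / 2) ^ p.1 := by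
        rw [← mul_pow, show (2 / 3 * (1 / 2) : ℝ) = 1 / 3 by norm_num, one_div_pow]
    _ ≤ (2 / 3) ^ p.1 * (1 / 2) ^ p.2 := by
        apply mul_le_mul_of_nonneg_left _ (by positivity)
        exact pow_le_pow_of_le_one (by norm_num) (by norm_num) h2

theorem bound_summable : Summable (fun p : ℕ × ℕ => ((2 / 3 : ℝ)) ^ p.1 * (1 / 2) ^ p.2) := by
  apply Summable.mul_of_nonneg
  · exact summable_geometric_of_lt_one (by norm_num) (by norm_num)
  · exact summable_geometric_of_lt_one (by norm_num) (by norm_num)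
  · intro i; positivity
  · intro i; positivity

theorem M_le (p : ℕ × ℕ) : M p ≤ (2 / 3) ^ p.1 * (1 / 2) ^ p.2 := by
  rcases Nat.lt_or_ge (lo p) (hi p) with h | h
  · rw [M_of_ge h.le]
    have h1 := one_div_lo_le h
    have h2 : (0 : ℝ) ≤ 1 / (hi p : ℝ) := by positivity
    linarith
  · rw [M_of_le h]; positivity

theorem M_summable : Summable M :=
  Summable.of_nonneg_of_le M_nonneg M_le bound_summable

theorem E_tendsto : Tendsto (fun n : ℕ => ((E n).card : ℝ) / n) atTop (𝓝 (∑' p, M p / 3)) := by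
  simp_rw [E_tsum]
  apply tendsto_tsum_of_dominated_convergence bound_summable
  · intro p
    exact tendsto_div_of_bound (f := fun n => ((W n (lo p) (hi p)).card : ℝ)) (W_bound · p)
  · apply Eventually.of_forall
    intro n p
    rw [Real.norm_eq_abs, abs_of_nonneg (by positivity)]
    rcases Nat.lt_or_ge (lo p) (hi p) with h | h
    · exact le_trans (W_le_lo n p) (one_div_lo_le h)
    · rw [W_empty h]
      simp only [Nat.cast_zero, zero_div]
      positivity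

theorem S_zero {n j : ℕ} (h : j ∉ range n) : (S n j).card = 0 := by
  rw [Finset.card_eq_zero, Finset.eq_empty_iff_forall_notMem]
  intro v hv
  unfold S at hv
  rw [Finset.mem_filter, Finset.mem_Icc] at hv
  apply h
  rw [Finset.mem_range]
  have h2 : j < 4 ^ j := Nat.lt_pow_self (by norm_num)
  have h3 : 2 * 4 ^ j * 1 ≤ 2 * 4 ^ j * v := Nat.mul_le_mul_left _ hv.1.1
  omega

theorem S_tsum (n : ℕ) : ((∑ j ∈ range n, (S n j).card : ℕ) : ℝ) / n =
    ∑' j : ℕ, ((S n j).card : ℝ) / n := by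
  rw [tsum_eq_sum (s := range n)]
  · rw [← Finset.sum_div]
    push_cast
    rfl
  · intro p hp
    rw [S_zero hp]
    simp

theorem S_tendsto : Tendsto (fun n : ℕ => ((∑ j ∈ range n, (S n j).card : ℕ) : ℝ) / n) atTop
    (𝓝 (2 / 9)) := by
  simp_rw [S_tsum]
  have hs : ∑' j : ℕ, (1 / 6 : ℝ) * (1 / 4) ^ j = 2 / 9 := by
    rw [tsum_mul_left, tsum_geometric_of_lt_one (by norm_num) (by norm_num)]
    norm_num
  rw [← hs]
  apply tendsto_tsum_of_dominated_convergence (bound := fun j => (1 / 4 : ℝ) ^ j)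
  · exact summable_geometric_of_lt_one (by norm_num) (by norm_num)
  · intro j
    apply tendsto_div_of_bound (f := fun n => ((S n j).card : ℝ)) (K := 2)
    intro n
    have h1 := card_le_bound (a := 2 * 4 ^ j) (by positivity) n
    have h2 : (n : ℝ) * (1 / 6 * (1 / 4) ^ j) = n * (1 / (3 * ((2 * 4 ^ j : ℕ) : ℝ))) := by
      push_cast
      rw [one_div_pow]
      field_simp
      ring
    rw [h2]
    exact h1
  · apply Eventually.of_forall
    intro n j
    rw [Real.norm_eq_abs, abs_of_nonneg (by positivity)]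
    have h1 := card_div_le (a := 2 * 4 ^ j) (by positivity) n
    refine le_trans h1 ?_
    push_cast
    rw [one_div_pow]
    apply one_div_le_one_div_of_le (by positivity)
    have : (0 : ℝ) < 4 ^ j := by positivity
    linarith

theorem half_tendsto : Tendsto (fun n : ℕ => (((n + 1) / 2 : ℕ) : ℝ) / n) atTop (𝓝 (1 / 2)) := by
  apply tendsto_div_of_bound (f := fun n => (((n + 1) / 2 : ℕ) : ℝ)) (K := 1)
  intro n
  have h1 : 2 * ((n + 1) / 2) ≤ n + 1 := by omega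
  have h2 : n ≤ 2 * ((n + 1) / 2) := by omega
  have h1' : (2 : ℝ) * (((n + 1) / 2 : ℕ) : ℝ) ≤ n + 1 := by exact_mod_cast h1
  have h2' : (n : ℝ) ≤ 2 * (((n + 1) / 2 : ℕ) : ℝ) := by exact_mod_cast h2
  rw [abs_le]
  constructor <;> linarith

theorem g_tendsto : Tendsto (fun n : ℕ => (g n : ℝ) / n) atTop
    (𝓝 (13 / 18 - 1 / 3 * ∑' p, M p)) := by
  have h1 := (half_tendsto.add S_tendsto).sub E_tendsto
  have h2 : (1 / 2 + 2 / 9 - ∑' p, M p / 3 : ℝ) = 13 / 18 - 1 / 3 * ∑' p, M p := by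
    rw [tsum_div_const]; ring
  rw [h2] at h1
  refine h1.congr ?_
  intro n
  have h3 := g_formula n
  have h4 : (g n : ℝ) + ((E n).card : ℝ) =
      (((n + 1) / 2 : ℕ) : ℝ) + ((∑ j ∈ range n, (S n j).card : ℕ) : ℝ) := by exact_mod_cast h3
  have h5 : (g n : ℝ) = (((n + 1) / 2 : ℕ) : ℝ) + ((∑ j ∈ range n, (S n j).card : ℕ) : ℝ)
      - ((E n).card : ℝ) := by linarith
  rw [h5]; ring

end Pool.Agent.P773b84
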