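import Pool.Agent.Lib.P773b84.Adm

/-! The size of the explicit set. -/

namespace Pool.Agent.P773b84

open Finset

theorem scale {B Y N : ℕ} (hB : 1 < B) (hY : 0 < Y) (h : Y ≤ N) :
    ∃ t, B ^ t * Y ≤ N ∧ N < B ^ (t + 1) * Y := by
  refine ⟨Nat.log B (N / Y), ?_, ?_⟩
  · have h1 : N / Y ≠ 0 := by
      have := Nat.div_pos h hY
      omega
    exact (Nat.le_div_iff_mul_le hY).1 (Nat.pow_log_le_self B h1)
  · exact (Nat.div_lt_iff_lt_mul hY).1 (Nat.lt_pow_succ_log_self hB (N / Y))

/-- every row contains an element -/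
theorem row_exists {n l q m : ℕ} (hm : 0 < m) (hmn : m ≤ n) :
    ∃ e, 2 ^ e * m ≤ n ∧ cond n l q e (2 ^ e * m) := by
  by_cases c1 : 8 * q ≤ 5 * n
  · by_cases c2 : l % 2 = 1
    · have key : ∀ e, inW1 n e (2 ^ e * m) → 2 ^ e * m ≤ n → 
          ∃ e, 2 ^ e * m ≤ n ∧ cond n l q e (2 ^ e * m) := by
        intro e he hle
        refine ⟨e, hle, ?_⟩
        unfold cond
        rw [if_pos c1, if_pos c2]
        exact he
      by_cases d1 : n < 6 * m
      · apply key 0
        · unfold inW1; left; exact ⟨rfl, by simpa using d1⟩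
        · simpa using hmn
      by_cases d2 : 5 * n < 144 * m
      · apply key 2
        · unfold inW1; right; right; left
          refine ⟨rfl, by norm_num; omega, by norm_num; omega⟩
        · norm_num; omega
      obtain ⟨t, ht1, ht2⟩ := scale (B := 4) (Y := 144 * m) (N := 5 * n) (by norm_num)
        (by omega) (by omega)
      have e1 : 4 ^ t * (144 * m) = 144 * (4 ^ t * m) := by ring
      have e2 : 4 ^ (t + 1) * (144 * m) = 576 * (4 ^ t * m) := by rw [pow_succ]; ring
      have e3 : 2 ^ (2 * t + 4) * m = 16 * (4 ^ t * m) := by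
        rw [pow_add, pow_mul]; norm_num; ring
      apply key (2 * t + 4)
      · rw [e3]; unfold inW1; right; right; right; right
        refine ⟨by omega, by omega, by omega, by omega⟩
      · omega
    · have key : ∀ e, inW0 n e (2 ^ e * m) → 2 ^ e * m ≤ n → 
          ∃ e, 2 ^ e * m ≤ n ∧ cond n l q e (2 ^ e * m) := by
        intro e he hle
        refine ⟨e, hle, ?_⟩
        unfold cond
        rw [if_pos c1, if_neg c2]
        exact he
      by_cases d1 : n < 3 * m
      · apply key 0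
        · unfold inW0; left; exact ⟨rfl, by simpa using d1⟩
        · simpa using hmn
      by_cases d2 : n < 12 * m
      · apply key 1
        · unfold inW0; right; right; left
          refine ⟨rfl, by norm_num; omega, by norm_num; omega⟩
        · norm_num; omega
      by_cases d3 : 5 * n < 288 * m
      · apply key 3
        · unfold inW0; right; right; right; right; left
          refine ⟨rfl, by norm_num; omega, by norm_num; omega⟩
        · norm_num; omega
      obtain ⟨t, ht1, ht2⟩ := scale (B := 4) (Y := 288 * m) (N := 5 * n) (by norm_num)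
        (by omega) (by omega)
      have e1 : 4 ^ t * (288 * m) = 288 * (4 ^ t * m) := by ring
      have e2 : 4 ^ (t + 1) * (288 * m) = 1152 * (4 ^ t * m) := by rw [pow_succ]; ring
      have e3 : 2 ^ (2 * t + 5) * m = 32 * (4 ^ t * m) := by
        rw [pow_add, pow_mul]; norm_num; ring
      apply key (2 * t + 5)
      · rw [e3]; unfold inW0; right; right; right; right; right; right
        refine ⟨by omega, by omega, by omega, by omega⟩
      · omega
  · by_cases c2 : l % 2 = 1
    · have key : ∀ e, inN1 n e (2 ^ e * m) → 2 ^ e * m ≤ n → 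
          ∃ e, 2 ^ e * m ≤ n ∧ cond n l q e (2 ^ e * m) := by
        intro e he hle
        refine ⟨e, hle, ?_⟩
        unfold cond
        rw [if_neg c1, if_pos c2]
        exact he
      by_cases d1 : n < 6 * m
      · apply key 0
        · unfold inN1; left; exact ⟨rfl, by simpa using d1⟩
        · simpa using hmn
      obtain ⟨t, ht1, ht2⟩ := scale (B := 4) (Y := 6 * m) (N := n) (by norm_num)
        (by omega) (by omega)
      have e1 : 4 ^ t * (6 * m) = 6 * (4 ^ t * m) := by ring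
      have e2 : 4 ^ (t + 1) * (6 * m) = 24 * (4 ^ t * m) := by rw [pow_succ]; ring
      have e3 : 2 ^ (2 * t + 2) * m = 4 * (4 ^ t * m) := by
        rw [pow_add, pow_mul]; norm_num; ring
      apply key (2 * t + 2)
      · rw [e3]; unfold inN1; right; right
        refine ⟨by omega, by omega, by omega, by omega⟩
      · omega
    · by_cases c3 : 4 * n < 5 * q
      · have key : ∀ e, inT n e (2 ^ e * m) → 2 ^ e * m ≤ n → 
          ∃ e, 2 ^ e * m ≤ n ∧ cond n l q e (2 ^ e * m) := by
          intro e he hle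
          refine ⟨e, hle, ?_⟩
          unfold cond
          rw [if_neg c1, if_neg c2, if_pos c3]
          exact he
        by_cases d1 : n < 3 * m
        · apply key 0
          · unfold inT; left; exact ⟨rfl, by simpa using d1⟩
          · simpa using hmn
        by_cases d2 : n < 10 * m
        · apply key 1
          · unfold inT; right; right; left
            refine ⟨rfl, by norm_num; omega, by norm_num; omega⟩
          · norm_num; omega
        by_cases d3 : n < 48 * m
        · apply key 3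
          · unfold inT; right; right; right; right; left
            refine ⟨rfl, by norm_num; omega, by norm_num; omega⟩
          · norm_num; omega
        obtain ⟨t, ht1, ht2⟩ := scale (B := 4) (Y := 48 * m) (N := n) (by norm_num)
          (by omega) (by omega)
        have e1 : 4 ^ t * (48 * m) = 48 * (4 ^ t * m) := by ring
        have e2 : 4 ^ (t + 1) * (48 * m) = 192 * (4 ^ t * m) := by rw [pow_succ]; ring
        have e3 : 2 ^ (2 * t + 5) * m = 32 * (4 ^ t * m) := by
          rw [pow_add, pow_mul]; norm_num; ring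
        apply key (2 * t + 5)
        · rw [e3]; unfold inT; right; right; right; right; right; right
          refine ⟨by omega, by omega, by omega, by omega⟩
        · omega
      · have key : ∀ e, inN0 n e (2 ^ e * m) → 2 ^ e * m ≤ n → 
          ∃ e, 2 ^ e * m ≤ n ∧ cond n l q e (2 ^ e * m) := by
          intro e he hle
          refine ⟨e, hle, ?_⟩
          unfold cond
          rw [if_neg c1, if_neg c2, if_neg c3]
          exact he
        by_cases d1 : n < 3 * m
        · apply key 0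
          · unfold inN0; left; exact ⟨by norm_num, by simpa using d1⟩
          · simpa using hmn
        obtain ⟨t, ht1, ht2⟩ := scale (B := 4) (Y := 3 * m) (N := n) (by norm_num)
          (by omega) (by omega)
        have e1 : 4 ^ t * (3 * m) = 3 * (4 ^ t * m) := by ring
        have e2 : 4 ^ (t + 1) * (3 * m) = 12 * (4 ^ t * m) := by rw [pow_succ]; ring
        have e3 : 2 ^ (2 * t + 1) * m = 2 * (4 ^ t * m) := by
          rw [pow_add, pow_mul]; norm_num; ring
        apply key (2 * t + 1)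
        · rw [e3]; unfold inN0; right
          refine ⟨by omega, by omega, by omega⟩
        · omega

theorem topW1a {n X Y : ℕ} (h : X = 2 * Y) (h1 : X ≤ n) (h2 : n < 3 * X) :
    inW1 n 1 X ∧ inW1 n 0 Y := by
  unfold inW1; omega

theorem topW1b {n e X Y : ℕ} (h : X = 2 * Y) (he : 3 ≤ e) (ho : e % 2 = 1)
    (h1 : 6 * X ≤ 5 * n) (h2 : 5 * n < 18 * X) : X ≤ n ∧ inW1 n e X ∧ inW1 n (e - 1) Y := by
  unfold inW1; omega

theorem topW0a {n X Y : ℕ} (h : X = 2 * Y) (h1 : 6 * X ≤ 5 * n) (h2 : n < 3 * X) :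
    inW0 n 2 X ∧ inW0 n 1 Y := by
  unfold inW0; omega

theorem topW0c {n X Y : ℕ} (h : X = 2 * Y) (h0 : 2 * X ≤ n) (h1 : 5 * n < 12 * X) :
    inW0 n 1 X ∧ inW0 n 0 Y := by
  unfold inW0; omega

theorem topW0b {n e X Y : ℕ} (h : X = 2 * Y) (he : 4 ≤ e) (ho : e % 2 = 0)
    (h1 : 6 * X ≤ 5 * n) (h2 : 5 * n < 18 * X) : X ≤ n ∧ inW0 n e X ∧ inW0 n (e - 1) Y := by
  unfold inW0; omega

theorem topN1 {n e X Y : ℕ} (h : X = 2 * Y) (he : 1 ≤ e) (ho : e % 2 = 1)
    (h1 : X ≤ n) (h2 : n < 3 * X) : inN1 n e X ∧ inN1 n (e - 1) Y := by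
  unfold inN1; omega

theorem topN0 {n e X Y : ℕ} (h : X = 2 * Y) (he : 1 ≤ e) (ho : e % 2 = 0)
    (h1 : X ≤ n) (h2 : n < 3 * X) : inN0 n e X ∧ inN0 n (e - 1) Y := by
  unfold inN0; omega

theorem topTa {n X Y : ℕ} (h : X = 2 * Y) (h1 : X ≤ n) (h2 : 2 * n < 5 * X) :
    inT n 2 X ∧ inT n 1 Y := by
  unfold inT; omega

theorem topTc {n X Y Z : ℕ} (h : X = 6 * Z) (h' : Y = 3 * Z) (h1 : 10 * Z ≤ n)
    (h2 : n < 12 * Z) : X ≤ n ∧ inT n 1 X ∧ inT n 0 Y := by
  unfold inT; omega

theorem topTb {n e X Y : ℕ} (h : X = 2 * Y) (he : 4 ≤ e) (ho : e % 2 = 0)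
    (h1 : X ≤ n) (h2 : n < 3 * X) : inT n e X ∧ inT n (e - 1) Y := by
  unfold inT; omega

/-- full rows -/
theorem top_exists {n v e : ℕ} (hv : 0 < v) (hvn : v ≤ n) (he1 : 1 ≤ e) (heL : e ≤ L n v)
    (hpar : e % 2 = L n v % 2) :
    ∃ f b, (f = e ∨ (e = 2 ∧ f = 1)) ∧ 2 ^ f * 3 ^ b * v ≤ n ∧
      cond n (L n v) (2 ^ L n v * v) f (2 ^ f * 3 ^ b * v) ∧
      cond n (L n v) (2 ^ L n v * v) (f - 1) (2 ^ (f - 1) * 3 ^ b * v) := by
  obtain ⟨s1, s2⟩ := L_spec hv hvn
  have hqe : 2 ^ e * v ≤ 2 ^ L n v * v :=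
    Nat.mul_le_mul_right _ (Nat.pow_le_pow_right (by norm_num) heL)
  generalize hl : L n v = l at *
  generalize hq : 2 ^ l * v = q at *
  have hpos : 0 < 2 ^ e * v := Nat.mul_pos (by positivity) hv
  -- the two scalings
  have sc1 : ∃ b, 2 ^ e * 3 ^ b * v ≤ n ∧ n < 3 * (2 ^ e * 3 ^ b * v) := by
    obtain ⟨b, h1, h2⟩ := scale (B := 3) (Y := 2 ^ e * v) (N := n) (by norm_num) hpos
      (le_trans hqe s1)
    refine ⟨b, ?_, ?_⟩
    · calc 2 ^ e * 3 ^ b * v = 3 ^ b * (2 ^ e * v) := by ring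
        _ ≤ n := h1
    · calc n < 3 ^ (b + 1) * (2 ^ e * v) := h2
        _ = 3 * (2 ^ e * 3 ^ b * v) := by rw [pow_succ]; ring
  have sc2 : 8 * q ≤ 5 * n → ∃ b, 6 * (2 ^ e * 3 ^ b * v) ≤ 5 * n ∧
      5 * n < 18 * (2 ^ e * 3 ^ b * v) := by
    intro hW
    obtain ⟨b, h1, h2⟩ := scale (B := 3) (Y := 6 * (2 ^ e * v)) (N := 5 * n) (by norm_num)
      (by omega) (by omega)
    refine ⟨b, ?_, ?_⟩
    · calc 6 * (2 ^ e * 3 ^ b * v) = 3 ^ b * (6 * (2 ^ e * v)) := by ring
        _ ≤ 5 * n := h1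
    · calc 5 * n < 3 ^ (b + 1) * (6 * (2 ^ e * v)) := h2
        _ = 18 * (2 ^ e * 3 ^ b * v) := by rw [pow_succ]; ring
  have half : ∀ b, 2 ^ e * 3 ^ b * v = 2 * (2 ^ (e - 1) * 3 ^ b * v) := by
    intro b
    obtain ⟨d, hd⟩ : ∃ d, e = d + 1 := ⟨e - 1, by omega⟩
    rw [hd, Nat.add_sub_cancel, pow_succ]; ring
  by_cases c1 : 8 * q ≤ 5 * n
  · by_cases c2 : l % 2 = 1
    · have cc : ∀ f a, inW1 n f a → cond n l q f a := by
        intro f a h; unfold cond; rw [if_pos c1, if_pos c2]; exact h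
      by_cases e1 : e = 1
      · obtain ⟨b, h1, h2⟩ := sc1
        have h3 := topW1a (half b) h1 h2
        subst e1
        exact ⟨1, b, Or.inl rfl, h1, cc _ _ h3.1, cc _ _ h3.2⟩
      · obtain ⟨b, h1, h2⟩ := sc2 c1
        have h3 := topW1b (half b) (show 3 ≤ e by omega) (by omega) h1 h2
        exact ⟨e, b, Or.inl rfl, h3.1, cc _ _ h3.2.1, cc _ _ h3.2.2⟩
    · have cc : ∀ f a, inW0 n f a → cond n l q f a := by
        intro f a h; unfold cond; rw [if_pos c1, if_neg c2]; exact h
      by_cases e1 : e = 2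
      · obtain ⟨b, h1, h2⟩ := sc1
        subst e1
        by_cases hy : 6 * (2 ^ 2 * 3 ^ b * v) ≤ 5 * n
        · have h3 := topW0a (half b) hy h2
          exact ⟨2, b, Or.inl rfl, h1, cc _ _ h3.1, cc _ _ h3.2⟩
        · have h4 : 2 ^ 2 * 3 ^ b * v = 4 * (2 ^ 0 * 3 ^ b * v) := by ring
          have h5 : 2 ^ 1 * 3 ^ b * v = 2 * (2 ^ 0 * 3 ^ b * v) := by ring
          rw [h4] at h1 h2 hy
          have h3 := topW0c (n := n) h5 (by omega) (by omega)
          exact ⟨1, b, Or.inr ⟨rfl, rfl⟩, by omega, cc _ _ h3.1, cc _ _ h3.2⟩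
      · obtain ⟨b, h1, h2⟩ := sc2 c1
        have h3 := topW0b (half b) (show 4 ≤ e by omega) (by omega) h1 h2
        exact ⟨e, b, Or.inl rfl, h3.1, cc _ _ h3.2.1, cc _ _ h3.2.2⟩
  · by_cases c2 : l % 2 = 1
    · have cc : ∀ f a, inN1 n f a → cond n l q f a := by
        intro f a h; unfold cond; rw [if_neg c1, if_pos c2]; exact h
      obtain ⟨b, h1, h2⟩ := sc1
      have h3 := topN1 (half b) he1 (by omega) h1 h2
      exact ⟨e, b, Or.inl rfl, h1, cc _ _ h3.1, cc _ _ h3.2⟩
    · by_cases c3 : 4 * n < 5 * q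
      · have cc : ∀ f a, inT n f a → cond n l q f a := by
          intro f a h; unfold cond; rw [if_neg c1, if_neg c2, if_pos c3]; exact h
        obtain ⟨b, h1, h2⟩ := sc1
        by_cases e1 : e = 2
        · subst e1
          by_cases hy : 2 * n < 5 * (2 ^ 2 * 3 ^ b * v)
          · have h3 := topTa (half b) h1 hy
            exact ⟨2, b, Or.inl rfl, h1, cc _ _ h3.1, cc _ _ h3.2⟩
          · have h4 : 2 ^ 1 * 3 ^ (b + 1) * v = 6 * (2 ^ 0 * 3 ^ b * v) := by rw [pow_succ]; ring
            have h5 : 2 ^ 0 * 3 ^ (b + 1) * v = 3 * (2 ^ 0 * 3 ^ b * v) := by rw [pow_succ]; ring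
            have h6 : 2 ^ 2 * 3 ^ b * v = 4 * (2 ^ 0 * 3 ^ b * v) := by ring
            rw [h6] at h1 h2 hy
            have h3 := topTc (n := n) h4 h5 (by omega) (by omega)
            exact ⟨1, b + 1, Or.inr ⟨rfl, rfl⟩, h3.1, cc _ _ h3.2.1, cc _ _ h3.2.2⟩
        · have h3 := topTb (half b) (show 4 ≤ e by omega) (by omega) h1 h2
          exact ⟨e, b, Or.inl rfl, h1, cc _ _ h3.1, cc _ _ h3.2⟩
      · have cc : ∀ f a, inN0 n f a → cond n l q f a := by
          intro f a h; unfold cond; rw [if_neg c1, if_neg c2, if_neg c3]; exact h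
        obtain ⟨b, h1, h2⟩ := sc1
        have h3 := topN0 (half b) he1 (by omega) h1 h2
        exact ⟨e, b, Or.inl rfl, h1, cc _ _ h3.1, cc _ _ h3.2⟩

end Pool.Agent.P773b84
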