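import Mathlib

/-!
Largest subset of `[1,n]` in which no element is a multiple of two others: definitions and
basic facts about the decomposition `a = 2^i * 3^b * v` with `v` coprime to `6`.
-/

namespace Pool.Agent.P773b84

open Finset

/-- `A` is admissible: no element of `A` is a common multiple of two other elements of `A`. -/
def Admissible (A : Finset ℕ) : Prop :=
  ∀ a ∈ A, ∀ b ∈ A, ∀ c ∈ A, a ≠ b → a ≠ c → b ≠ c → ¬ (b ∣ a ∧ c ∣ a)

open Classical in
/-- `g n` is the largest size of an admissible subset of `{1, …, n}`. -/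
noncomputable def g (n : ℕ) : ℕ :=
  ((Icc 1 n).powerset.filter Admissible).sup Finset.card

/-- the numbers `v ≤ n` coprime to `6` -/
def C (n : ℕ) : Finset ℕ := (Icc 1 n).filter (fun v => Nat.Coprime v 6)

theorem cop_two {v : ℕ} (hv : Nat.Coprime v 6) : ¬ 2 ∣ v := by
  intro h
  have : 2 ∣ Nat.gcd v 6 := Nat.dvd_gcd h (by norm_num)
  rw [Nat.Coprime] at hv
  rw [hv] at this
  norm_num at this

theorem cop_three {v : ℕ} (hv : Nat.Coprime v 6) : ¬ 3 ∣ v := by
  intro h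
  have : 3 ∣ Nat.gcd v 6 := Nat.dvd_gcd h (by norm_num)
  rw [Nat.Coprime] at hv
  rw [hv] at this
  norm_num at this

theorem cop_pos {v : ℕ} (hv : Nat.Coprime v 6) : 0 < v := by
  rcases Nat.eq_zero_or_pos v with h | h
  · subst h
    norm_num at hv
  · exact h

theorem cop_of {v : ℕ} (h2 : ¬ 2 ∣ v) (h3 : ¬ 3 ∣ v) : Nat.Coprime v 6 := by
  have e : (6 : ℕ) = 2 * 3 := by norm_num
  rw [e]
  apply Nat.Coprime.mul_right
  · exact ((Nat.Prime.coprime_iff_not_dvd Nat.prime_two).2 h2).symm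
  · exact ((Nat.Prime.coprime_iff_not_dvd Nat.prime_three).2 h3).symm

theorem rep_exists {a : ℕ} (ha : 0 < a) :
    ∃ i b v, Nat.Coprime v 6 ∧ a = 2 ^ i * 3 ^ b * v := by
  obtain ⟨i, a', h2, ha'⟩ := Nat.exists_eq_pow_mul_and_not_dvd (n := a) ha.ne' 2 (by norm_num)
  have ha'0 : a' ≠ 0 := by
    rintro rfl
    simp at h2
  obtain ⟨b, v, h3, hv⟩ := Nat.exists_eq_pow_mul_and_not_dvd (n := a') ha'0 3 (by norm_num)
  refine ⟨i, b, v, cop_of ?_ h3, ?_⟩
  · intro h
    apply h2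
    rw [hv]
    exact Dvd.dvd.mul_left h _
  · rw [ha', hv]; ring

theorem pv2 {i b v : ℕ} (hv : Nat.Coprime v 6) : padicValNat 2 (2 ^ i * 3 ^ b * v) = i := by
  have hv0 : v ≠ 0 := (cop_pos hv).ne'
  haveI : Fact (Nat.Prime 2) := ⟨Nat.prime_two⟩
  rw [padicValNat.mul (by positivity) hv0, padicValNat.mul (by positivity) (by positivity),
    padicValNat.prime_pow]
  have h1 : padicValNat 2 (3 ^ b) = 0 := by
    apply padicValNat.eq_zero_of_not_dvd
    intro h
    have := Nat.Prime.dvd_of_dvd_pow Nat.prime_two h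
    norm_num at this
  have h2 : padicValNat 2 v = 0 := padicValNat.eq_zero_of_not_dvd (cop_two hv)
  omega

theorem pv3 {i b v : ℕ} (hv : Nat.Coprime v 6) : padicValNat 3 (2 ^ i * 3 ^ b * v) = b := by
  have hv0 : v ≠ 0 := (cop_pos hv).ne'
  haveI : Fact (Nat.Prime 3) := ⟨Nat.prime_three⟩
  rw [padicValNat.mul (by positivity) hv0, padicValNat.mul (by positivity) (by positivity),
    padicValNat.prime_pow]
  have h1 : padicValNat 3 (2 ^ i) = 0 := by
    apply padicValNat.eq_zero_of_not_dvd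
    intro h
    have := Nat.Prime.dvd_of_dvd_pow Nat.prime_three h
    norm_num at this
  have h2 : padicValNat 3 v = 0 := padicValNat.eq_zero_of_not_dvd (cop_three hv)
  omega

/-- the part of `a` coprime to `6` -/
def core (a : ℕ) : ℕ := a / (2 ^ padicValNat 2 a * 3 ^ padicValNat 3 a)

theorem core_rep {i b v : ℕ} (hv : Nat.Coprime v 6) : core (2 ^ i * 3 ^ b * v) = v := by
  unfold core
  rw [pv2 hv, pv3 hv]
  exact Nat.mul_div_cancel_left _ (by positivity)

theorem rep_unique {i b v i' b' v' : ℕ} (hv : Nat.Coprime v 6) (hv' : Nat.Coprime v' 6)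
    (h : 2 ^ i * 3 ^ b * v = 2 ^ i' * 3 ^ b' * v') : i = i' ∧ b = b' ∧ v = v' := by
  refine ⟨?_, ?_, ?_⟩
  · rw [← pv2 (i := i) (b := b) hv, h, pv2 hv']
  · rw [← pv3 (i := i) (b := b) hv, h, pv3 hv']
  · rw [← core_rep (i := i) (b := b) hv, h, core_rep hv']

theorem mem_C {n v : ℕ} : v ∈ C n ↔ v ≤ n ∧ Nat.Coprime v 6 := by
  unfold C
  rw [Finset.mem_filter, Finset.mem_Icc]
  constructor
  · rintro ⟨⟨-, h⟩, h'⟩; exact ⟨h, h'⟩
  · rintro ⟨h, h'⟩; exact ⟨⟨cop_pos h', h⟩, h'⟩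

theorem core_mem {n a : ℕ} (ha : 1 ≤ a) (han : a ≤ n) : core a ∈ C n := by
  obtain ⟨i, b, v, hv, rfl⟩ := rep_exists ha
  rw [core_rep hv, mem_C]
  refine ⟨le_trans ?_ han, hv⟩
  have : 1 ≤ 2 ^ i * 3 ^ b := Nat.one_le_iff_ne_zero.2 (by positivity)
  nlinarith

/-- floor of `log_2 (n/v)` -/
def L (n v : ℕ) : ℕ := Nat.log 2 (n / v)

theorem L_spec {n v : ℕ} (hv : 0 < v) (hvn : v ≤ n) :
    2 ^ L n v * v ≤ n ∧ n < 2 ^ (L n v + 1) * v := by
  have h1 : n / v ≠ 0 := by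
    have := Nat.div_pos hvn hv
    omega
  have h2 := Nat.pow_log_le_self 2 h1
  have h3 := Nat.lt_pow_succ_log_self (b := 2) (by norm_num) (n / v)
  refine ⟨?_, ?_⟩
  · unfold L
    exact (Nat.le_div_iff_mul_le hv).1 h2
  · unfold L
    exact (Nat.div_lt_iff_lt_mul hv).1 h3

theorem L_eq {n v l : ℕ} (hv : 0 < v) (h1 : 2 ^ l * v ≤ n) (h2 : n < 2 ^ (l + 1) * v) :
    L n v = l := by
  unfold L
  apply Nat.log_eq_of_pow_le_of_lt_pow
  · exact (Nat.le_div_iff_mul_le hv).2 h1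
  · exact (Nat.div_lt_iff_lt_mul hv).2 h2

/-- the number of `j` with `2 * 4^j * v ≤ n` -/
def J (n v : ℕ) : ℕ := (L n v + 1) / 2

end Pool.Agent.P773b84
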