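import Pool.Agent.Lib.P773b84.Count

/-! The lower bound for `g`, and the exact formula. -/

namespace Pool.Agent.P773b84

open Finset

theorem odd_card (n : ℕ) : ((Icc 1 n).filter (fun m => m % 2 = 1)).card = (n + 1) / 2 := by
  induction n with
  | zero => simp
  | succ k ih =>
    have e : Icc 1 (k + 1) = insert (k + 1) (Icc 1 k) := by
      ext x
      simp only [Finset.mem_Icc, Finset.mem_insert]
      omega
    rw [e, Finset.filter_insert]
    split_ifs with h
    · rw [Finset.card_insert_of_notMem, ih]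
      · omega
      · simp
    · rw [ih]; omega

theorem odd_pow_inj {e f m k : ℕ} (hm : m % 2 = 1) (hk : k % 2 = 1) (h : 2 ^ e * m = 2 ^ f * k) :
    m = k := by
  rcases le_total e f with hle | hle
  · obtain ⟨d, rfl⟩ := Nat.exists_eq_add_of_le hle
    rw [pow_add, mul_assoc] at h
    have h1 : m = 2 ^ d * k := Nat.eq_of_mul_eq_mul_left (by positivity) h
    rcases Nat.eq_zero_or_pos d with h0 | h0
    · subst h0; simpa using h1
    · obtain ⟨c, rfl⟩ : ∃ c, d = c + 1 := ⟨d - 1, by omega⟩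
      have h2 : 2 ^ (c + 1) * k = 2 * (2 ^ c * k) := by rw [pow_succ]; ring
      omega
  · obtain ⟨d, rfl⟩ := Nat.exists_eq_add_of_le hle
    rw [pow_add, mul_assoc] at h
    have h1 : 2 ^ d * m = k := Nat.eq_of_mul_eq_mul_left (by positivity) h
    rcases Nat.eq_zero_or_pos d with h0 | h0
    · subst h0; simpa using h1
    · obtain ⟨c, rfl⟩ : ∃ c, d = c + 1 := ⟨d - 1, by omega⟩
      have h2 : 2 ^ (c + 1) * m = 2 * (2 ^ c * m) := by rw [pow_succ]; ring
      omega

theorem odd_rep {m : ℕ} (hm : m % 2 = 1) : ∃ b v, Nat.Coprime v 6 ∧ m = 3 ^ b * v := by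
  obtain ⟨i, b, v, hv, hmv⟩ := rep_exists (a := m) (by omega)
  rcases Nat.eq_zero_or_pos i with h0 | h0
  · subst h0
    exact ⟨b, v, hv, by simpa using hmv⟩
  · exfalso
    obtain ⟨c, rfl⟩ : ∃ c, i = c + 1 := ⟨i - 1, by omega⟩
    have h2 : 2 ^ (c + 1) * 3 ^ b * v = 2 * (2 ^ c * 3 ^ b * v) := by rw [pow_succ]; ring
    omega

theorem mem_A1_of {n f b v : ℕ} (hv : Nat.Coprime v 6) (hle : 2 ^ f * 3 ^ b * v ≤ n)
    (h : cond n (L n v) (2 ^ L n v * v) f (2 ^ f * 3 ^ b * v)) : 2 ^ f * 3 ^ b * v ∈ A1 n := by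
  rw [mem_A1, condA_rep hv]
  refine ⟨?_, hle, h⟩
  have := cop_pos hv
  exact Nat.one_le_iff_ne_zero.2 (by positivity)

theorem row_ex {n m : ℕ} (hm : m % 2 = 1) (hmn : m ≤ n) : ∃ e, 2 ^ e * m ∈ A1 n := by
  obtain ⟨b, v, hv, rfl⟩ := odd_rep hm
  obtain ⟨e, h1, h2⟩ := row_exists (n := n) (l := L n v) (q := 2 ^ L n v * v) (m := 3 ^ b * v)
    (Nat.mul_pos (by positivity) (cop_pos hv)) hmn
  refine ⟨e, ?_⟩
  rw [← mul_assoc] at h1 h2 ⊢
  exact mem_A1_of hv h1 h2

open Classical in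
noncomputable def rowMin (n m : ℕ) : ℕ :=
  if h : ∃ e, 2 ^ e * m ∈ A1 n then 2 ^ (Nat.find h) * m else 0

theorem rowMin_spec {n m : ℕ} (hm : m % 2 = 1) (hmn : m ≤ n) :
    ∃ e, rowMin n m = 2 ^ e * m ∧ 2 ^ e * m ∈ A1 n ∧ ∀ d, d < e → 2 ^ d * m ∉ A1 n := by
  classical
  have h := row_ex hm hmn
  refine ⟨Nat.find h, ?_, Nat.find_spec h, fun d hd => Nat.find_min h hd⟩
  unfold rowMin
  rw [dif_pos h]

theorem sum_J_eq (n : ℕ) (v : ℕ) (hv : Nat.Coprime v 6) (hvn : v ≤ n) :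
    J n v ≤ ((A1 n).filter (fun a => (2 ∣ a ∧ a / 2 ∈ A1 n) ∧ core a = v)).card := by
  have hv0 := cop_pos hv
  have key : ∀ j, ∃ a, j < J n v → (a ∈ (A1 n).filter (fun a => (2 ∣ a ∧ a / 2 ∈ A1 n) ∧
      core a = v)) ∧ (padicValNat 2 a = L n v - 2 * j ∨
        (L n v - 2 * j = 2 ∧ padicValNat 2 a = 1)) := by
    intro j
    by_cases hj : j < J n v
    · have hJ : J n v = (L n v + 1) / 2 := rfl
      obtain ⟨f, b, hf, hle, h1, h2⟩ := top_exists (n := n) (v := v) (e := L n v - 2 * j) hv0 hvn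
        (by omega) (by omega) (by omega)
      refine ⟨2 ^ f * 3 ^ b * v, fun _ => ⟨?_, ?_⟩⟩
      · have hf1 : 1 ≤ f := by omega
        obtain ⟨d, rfl⟩ : ∃ d, f = d + 1 := ⟨f - 1, by omega⟩
        rw [Nat.add_sub_cancel] at h2
        have e1 : 2 ^ (d + 1) * 3 ^ b * v = 2 * (2 ^ d * 3 ^ b * v) := by rw [pow_succ]; ring
        rw [Finset.mem_filter]
        refine ⟨mem_A1_of hv hle h1, ⟨⟨_, e1⟩, ?_⟩, core_rep hv⟩
        rw [e1, Nat.mul_div_cancel_left _ (by norm_num)]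
        exact mem_A1_of hv (by omega) h2
      · rw [pv2 hv]
        omega
    · exact ⟨0, fun h => absurd h hj⟩
  choose F hF using key
  have h1 : (range (J n v)).card ≤
      ((A1 n).filter (fun a => (2 ∣ a ∧ a / 2 ∈ A1 n) ∧ core a = v)).card := by
    apply Finset.card_le_card_of_injOn F
    · intro j hj
      exact (hF j (by simpa using hj)).1
    · intro j hj k hk hjk
      have hj' := (hF j (by simpa using hj)).2
      have hk' := (hF k (by simpa using hk)).2
      have hj'' : j < J n v := by simpa using hj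
      have hk'' : k < J n v := by simpa using hk
      have hJ : J n v = (L n v + 1) / 2 := rfl
      rw [hjk] at hj'
      omega
  rw [Finset.card_range] at h1
  exact h1

theorem card_A1_ge (n : ℕ) : (n + 1) / 2 + ∑ v ∈ C n, J n v ≤ (A1 n).card := by
  classical
  rw [← Finset.card_filter_add_card_filter_not (s := A1 n) (fun a => 2 ∣ a ∧ a / 2 ∈ A1 n)]
  have h1 : (n + 1) / 2 ≤ ((A1 n).filter (fun a => ¬ (2 ∣ a ∧ a / 2 ∈ A1 n))).card := by
    rw [← odd_card n]
    apply Finset.card_le_card_of_injOn (rowMin n)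
    · intro m hm
      rw [Finset.mem_coe, Finset.mem_filter, Finset.mem_Icc] at hm
      obtain ⟨e, h1, h2, h3⟩ := rowMin_spec hm.2 hm.1.2
      rw [Finset.mem_coe, Finset.mem_filter, h1]
      refine ⟨h2, ?_⟩
      rintro ⟨h4, h5⟩
      rcases Nat.eq_zero_or_pos e with h0 | h0
      · subst h0
        rw [pow_zero, one_mul] at h4
        omega
      · obtain ⟨d, rfl⟩ : ∃ d, e = d + 1 := ⟨e - 1, by omega⟩
        have e1 : 2 ^ (d + 1) * m = 2 * (2 ^ d * m) := by rw [pow_succ]; ring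
        rw [e1, Nat.mul_div_cancel_left _ (by norm_num)] at h5
        exact h3 d (by omega) h5
    · intro m hm k hk hmk
      rw [Finset.mem_coe, Finset.mem_filter, Finset.mem_Icc] at hm hk
      obtain ⟨e, h1, -, -⟩ := rowMin_spec hm.2 hm.1.2
      obtain ⟨f, h2, -, -⟩ := rowMin_spec hk.2 hk.1.2
      rw [h1, h2] at hmk
      exact odd_pow_inj hm.2 hk.2 hmk
  have h2 : ∑ v ∈ C n, J n v ≤ ((A1 n).filter (fun a => 2 ∣ a ∧ a / 2 ∈ A1 n)).card := by
    have h3 : ∀ x ∈ (A1 n).filter (fun a => 2 ∣ a ∧ a / 2 ∈ A1 n), core x ∈ C n := by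
      intro x hx
      have h4 := mem_A1.1 (Finset.mem_filter.1 hx).1
      exact core_mem h4.1 h4.2.1
    rw [Finset.card_eq_sum_card_fiberwise h3]
    apply Finset.sum_le_sum
    intro v hv
    obtain ⟨hvn, hvc⟩ := mem_C.1 hv
    refine le_trans (sum_J_eq n v hvc hvn) ?_
    rw [Finset.filter_filter]
  omega

open Classical in
theorem card_rem_le (n : ℕ) : ((A1 n).filter (remA n)).card ≤ (E n).card := by
  have key : ∀ a ∈ (A1 n).filter (remA n), ∃ c u, Nat.Coprime u 6 ∧ a = 15 * (3 ^ c * u) ∧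
      core a / 5 = u ∧ u ∈ E n ∧ a ≤ n ∧ 5 * n < 6 * a := by
    intro a ha
    obtain ⟨ha1, ha2⟩ := Finset.mem_filter.1 ha
    obtain ⟨h1, h2, -⟩ := mem_A1.1 ha1
    obtain ⟨r1, r2, r3, r4, r5⟩ := ha2
    obtain ⟨b, v, hv, rfl⟩ := odd_rep r2
    have hcore : core (3 ^ b * v) = v := by
      have := core_rep (i := 0) (b := b) hv
      simpa using this
    rw [hcore] at r4 r5
    have h5 : 5 ∣ v := by
      have h6 : 5 ∣ 3 ^ b * v := Dvd.dvd.trans (by norm_num) (Nat.dvd_of_mod_eq_zero r1)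
      rcases (Nat.Prime.dvd_mul (by norm_num : Nat.Prime 5)).1 h6 with h6 | h6
      · have := Nat.Prime.dvd_of_dvd_pow (by norm_num : Nat.Prime 5) h6
        norm_num at this
      · exact h6
    obtain ⟨u, rfl⟩ := h5
    have hu : Nat.Coprime u 6 := Nat.Coprime.coprime_mul_left hv
    have hu0 := cop_pos hu
    have hb : b ≠ 0 := by
      rintro rfl
      have h6 : 3 ∣ 3 ^ 0 * (5 * u) := Dvd.dvd.trans (by norm_num) (Nat.dvd_of_mod_eq_zero r1)
      rw [pow_zero, one_mul] at h6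
      exact cop_three hv h6
    obtain ⟨c, rfl⟩ : ∃ c, b = c + 1 := ⟨b - 1, by omega⟩
    have e1 : 3 ^ (c + 1) * (5 * u) = 15 * (3 ^ c * u) := by rw [pow_succ]; ring
    have hdiv : 5 * u / 5 = u := Nat.mul_div_cancel_left _ (by norm_num)
    rw [hdiv] at r5
    refine ⟨c, u, hu, e1, by rw [hcore, hdiv], ?_, h2, r3⟩
    rw [mem_E]
    rw [e1] at h2 r3
    have hun : 5 * u ≤ n := by
      have h7 : 1 ≤ 3 ^ c := Nat.one_le_iff_ne_zero.2 (by positivity)
      have h8 : 1 * u ≤ 3 ^ c * u := Nat.mul_le_mul_right _ h7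
      omega
    obtain ⟨s1, s2⟩ := L_spec (n := n) (v := 5 * u) (by omega) hun
    obtain ⟨t1, t2⟩ := L_spec (n := n) (v := u) hu0 (by omega)
    obtain ⟨l, hl⟩ : ∃ l, L n (5 * u) = 2 * l + 1 := ⟨L n (5 * u) / 2, by omega⟩
    rw [hl] at s1 s2
    have f0 : (2 : ℕ) ^ (2 * l) = 4 ^ l := by rw [pow_mul]; norm_num
    have f1 : (2 : ℕ) ^ (2 * l + 1) * (5 * u) = 10 * (4 ^ l * u) := by
      rw [pow_succ, f0]; ring
    have f2 : (2 : ℕ) ^ (2 * l + 1 + 1) * (5 * u) = 20 * (4 ^ l * u) := by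
      rw [pow_succ, pow_succ, f0]; ring
    refine ⟨hu, c, l, ?_, ?_, ?_, ?_⟩
    · rw [mul_assoc]; exact h2
    · rw [mul_assoc]; omega
    · rw [mul_assoc]; omega
    · rw [mul_assoc]
      by_contra hcon
      have f3 : (2 : ℕ) ^ (2 * l + 4) * u = 16 * (4 ^ l * u) := by
        rw [pow_add, f0]; ring
      have f4 : (2 : ℕ) ^ (2 * l + 4 + 1) * u = 32 * (4 ^ l * u) := by
        rw [pow_add, pow_add, f0]; ring
      have hL : L n u = 2 * l + 4 := L_eq hu0 (by omega) (by omega)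
      omega
  apply Finset.card_le_card_of_injOn (fun a => core a / 5)
  · intro a ha
    obtain ⟨c, u, -, -, h1, h2, -, -⟩ := key a ha
    show core a / 5 ∈ E n
    rw [h1]; exact h2
  · intro a ha a' ha' haa
    obtain ⟨c, u, hu, h0, h1, -, h3, h4⟩ := key a ha
    obtain ⟨c', u', -, h0', h1', -, h3', h4'⟩ := key a' ha'
    have huu : u = u' := by
      rw [← h1, ← h1']; exact haa
    subst huu
    have hu0 := cop_pos hu
    rcases lt_trichotomy c c' with h | h | h
    · exfalso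
      have h5 : 3 ^ (c + 1) ≤ 3 ^ c' := Nat.pow_le_pow_right (by norm_num) (by omega)
      have h6 : 3 ^ (c + 1) * u ≤ 3 ^ c' * u := Nat.mul_le_mul_right _ h5
      have h7 : 3 ^ (c + 1) * u = 3 * (3 ^ c * u) := by rw [pow_succ]; ring
      omega
    · subst h
      rw [h0, h0']
    · exfalso
      have h5 : 3 ^ (c' + 1) ≤ 3 ^ c := Nat.pow_le_pow_right (by norm_num) (by omega)
      have h6 : 3 ^ (c' + 1) * u ≤ 3 ^ c * u := Nat.mul_le_mul_right _ h5
      have h7 : 3 ^ (c' + 1) * u = 3 * (3 ^ c' * u) := by rw [pow_succ]; ring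
      omega

theorem le_g {n : ℕ} {A : Finset ℕ} (hA : A ⊆ Icc 1 n) (had : Admissible A) :
    A.card ≤ g n := by
  unfold g
  apply Finset.le_sup (f := Finset.card)
  simp only [Finset.mem_filter, Finset.mem_powerset]
  exact ⟨hA, had⟩

theorem g_ge (n : ℕ) : (n + 1) / 2 + ∑ v ∈ C n, J n v ≤ g n + (E n).card := by
  classical
  have h1 := card_A1_ge n
  have h2 := card_rem_le n
  have h3 : (A0 n).card ≤ g n := by
    apply le_g _ (A0_adm n)
    intro x hx
    have := mem_A1.1 (mem_A0.1 hx).1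
    exact Finset.mem_Icc.2 ⟨this.1, this.2.1⟩
  have h4 := Finset.card_filter_add_card_filter_not (s := A1 n) (remA n)
  have h5 : (A0 n).card = ((A1 n).filter (fun a => ¬ remA n a)).card := by
    unfold A0
    congr!
  have h6 : ((A1 n).filter (remA n)).card ≤ (E n).card := by
    convert h2
  omega

theorem g_exact (n : ℕ) : g n + (E n).card = (n + 1) / 2 + ∑ v ∈ C n, J n v :=
  le_antisymm (g_le n) (g_ge n)

end Pool.Agent.P773b84
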