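import Pool.Agent.Lib.P773b84.Asym2

/-! Numerical value of the limit. -/

namespace Pool.Agent.P773b84

open Finset Filter Topology

/-- the sum over the second index -/
noncomputable def mm (b : ℕ) : ℝ := ∑ l ∈ range (b + 1), M (b, l)

theorem M_zero_of_lt {b l : ℕ} (h : b < l) : M (b, l) = 0 := by
  apply M_of_le
  by_contra hcon
  have := le_of_lo_lt_hi (p := (b, l)) (by omega)
  simp only at this
  omega

theorem tsum_eq_mm (b : ℕ) : ∑' l, M (b, l) = mm b := by
  unfold mm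
  apply tsum_eq_sum
  intro l hl
  rw [Finset.mem_range] at hl
  exact M_zero_of_lt (by omega)

theorem M_le_base (b l : ℕ) : M (b, l) ≤ 1 / (90 * 3 ^ b) := by
  rcases Nat.lt_or_ge (lo (b, l)) (hi (b, l)) with h | h
  · rw [M_of_ge h.le]
    have h1 : 15 * 3 ^ b ≤ lo (b, l) := le_max_left _ _
    have h2 : hi (b, l) ≤ 18 * 3 ^ b := min_le_left _ _
    have h1' : (15 * 3 ^ b : ℝ) ≤ lo (b, l) := by exact_mod_cast h1
    have h2' : (hi (b, l) : ℝ) ≤ 18 * 3 ^ b := by exact_mod_cast h2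
    have h3 : (0 : ℝ) < hi (b, l) := by exact_mod_cast hi_pos _
    have h4 := one_div_le_one_div_of_le (by positivity) h1'
    have h5 := one_div_le_one_div_of_le h3 h2'
    have h6 : (1 : ℝ) / (15 * 3 ^ b) - 1 / (18 * 3 ^ b) = 1 / (90 * 3 ^ b) := by
      field_simp
      norm_num
    linarith
  · rw [M_of_le h]; positivity

theorem M_unique {b l k : ℕ} (h1 : M (b, l) ≠ 0) (h2 : M (b, k) ≠ 0) : l ≤ k := by
  by_contra hcon
  have g1 : lo (b, l) < hi (b, l) := by
    by_contra h; exact h1 (M_of_le (by omega))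
  have g2 : lo (b, k) < hi (b, k) := by
    by_contra h; exact h2 (M_of_le (by omega))
  have a1 : 10 * 4 ^ l ≤ lo (b, l) := le_max_right _ _
  have a2 : hi (b, l) ≤ 18 * 3 ^ b := min_le_left _ _
  have a3 : 15 * 3 ^ b ≤ lo (b, k) := le_max_left _ _
  have a4 : hi (b, k) ≤ 16 * 4 ^ k := min_le_right _ _
  have a5 : 4 ^ (k + 1) ≤ 4 ^ l := Nat.pow_le_pow_right (by norm_num) (by omega)
  have a6 : 4 ^ (k + 1) = 4 * 4 ^ k := by rw [pow_succ]; ring
  omega

theorem mm_le (b : ℕ) : mm b ≤ 1 / (90 * 3 ^ b) := by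
  by_cases h : ∃ l, M (b, l) ≠ 0
  · obtain ⟨l, hl⟩ := h
    have h1 : ∑' k, M (b, k) = M (b, l) := by
      apply tsum_eq_single
      intro k hk
      by_contra hcon
      exact hk (le_antisymm (M_unique hcon hl) (M_unique hl hcon))
    rw [← tsum_eq_mm, h1]
    exact M_le_base b l
  · push Not at h
    unfold mm
    rw [Finset.sum_eq_zero (fun l _ => h l)]
    positivity

theorem mm_nonneg (b : ℕ) : 0 ≤ mm b := Finset.sum_nonneg (fun _ _ => M_nonneg _)

theorem geo_summable : Summable (fun b : ℕ => (1 : ℝ) / (90 * 3 ^ b)) := by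
  have h : Summable (fun b : ℕ => (1 / 90 : ℝ) * (1 / 3) ^ b) :=
    (summable_geometric_of_lt_one (by norm_num) (by norm_num)).mul_left _
  refine h.congr ?_
  intro b
  rw [one_div_pow]
  field_simp

theorem mm_summable : Summable mm := Summable.of_nonneg_of_le mm_nonneg mm_le geo_summable

theorem sum_M : ∑' p, M p = ∑' b, mm b := by
  rw [M_summable.tsum_prod]
  congr 1
  ext b
  exact tsum_eq_mm b

theorem tail_le : ∑' b, mm (b + 10) ≤ 1 / (60 * 3 ^ 10) := by
  have h1 : Summable (fun b : ℕ => (1 : ℝ) / (90 * 3 ^ (b + 10))) :=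
    (summable_nat_add_iff 10).2 geo_summable
  have h2 : ∑' b, mm (b + 10) ≤ ∑' b : ℕ, (1 : ℝ) / (90 * 3 ^ (b + 10)) :=
    ((summable_nat_add_iff 10).2 mm_summable).tsum_le_tsum (fun b => mm_le (b + 10)) h1
  have h3 : ∑' b : ℕ, (1 : ℝ) / (90 * 3 ^ (b + 10)) = 1 / (60 * 3 ^ 10) := by
    have h4 : ∀ b : ℕ, (1 : ℝ) / (90 * 3 ^ (b + 10)) = 1 / (90 * 3 ^ 10) * (1 / 3) ^ b := by
      intro b
      rw [one_div_pow, one_div_mul_one_div]
      congr 1
      rw [pow_add]
      ring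
    rw [tsum_congr h4, tsum_mul_left, tsum_geometric_of_lt_one (by norm_num) (by norm_num)]
    norm_num
  linarith

theorem head_eq : ∑ b ∈ range 10, mm b =
    (1 / 15 - 1 / 16) + (1 / 45 - 1 / 54) + (1 / 160 - 1 / 162) + (1 / 3645 - 1 / 4096) +
      (1 / 10935 - 1 / 13122) := by
  simp only [mm, Finset.sum_range_succ, Finset.sum_range_zero, M]
  norm_num

theorem limit_bounds : (0.7195578 : ℝ) < 13 / 18 - 1 / 3 * ∑' p, M p ∧
    13 / 18 - 1 / 3 * ∑' p, M p < (0.7195579 : ℝ) := by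
  rw [sum_M, ← mm_summable.sum_add_tsum_nat_add 10, head_eq]
  have h1 := tail_le
  have h2 : 0 ≤ ∑' b, mm (b + 10) := tsum_nonneg (fun b => mm_nonneg _)
  constructor
  · norm_num at h1 ⊢
    linarith
  · norm_num at h1 ⊢
    linarith

end Pool.Agent.P773b84
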