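import Pool.Agent.Lib.P773b84.Defs

/-! The explicit admissible set: interval conditions, and the part of the admissibility proof
inside one class. -/

namespace Pool.Agent.P773b84

def inN1 (n e a : ℕ) : Prop :=
  (e = 0 ∧ n < 6 * a) ∨ (e % 2 = 1 ∧ n < 3 * a) ∨
    (1 ≤ e ∧ e % 2 = 0 ∧ 3 * a ≤ 2 * n ∧ n < 6 * a)

def inN0 (n e a : ℕ) : Prop :=
  (e % 2 = 0 ∧ n < 3 * a) ∨ (e % 2 = 1 ∧ 3 * a ≤ 2 * n ∧ n < 6 * a)

def inT (n e a : ℕ) : Prop :=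
  (e = 0 ∧ n < 3 * a) ∨ (e = 0 ∧ 10 * a ≤ 3 * n ∧ n < 4 * a) ∨
  (e = 1 ∧ 3 * a ≤ 2 * n ∧ n < 5 * a) ∨ (e = 2 ∧ 2 * n < 5 * a) ∨
  (e = 3 ∧ 5 * a ≤ 4 * n ∧ n < 6 * a) ∨ (4 ≤ e ∧ e % 2 = 0 ∧ n < 3 * a) ∨
  (5 ≤ e ∧ e % 2 = 1 ∧ 3 * a ≤ 2 * n ∧ n < 6 * a)

def inW1 (n e a : ℕ) : Prop :=
  (e = 0 ∧ n < 6 * a) ∨ (e = 1 ∧ n < 3 * a) ∨ (e = 2 ∧ 3 * a ≤ 2 * n ∧ 5 * n < 36 * a) ∨
  (3 ≤ e ∧ e % 2 = 1 ∧ 6 * a ≤ 5 * n ∧ 5 * n < 18 * a) ∨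
  (4 ≤ e ∧ e % 2 = 0 ∧ 9 * a ≤ 5 * n ∧ 5 * n < 36 * a)

def inW0 (n e a : ℕ) : Prop :=
  (e = 0 ∧ n < 3 * a) ∨ (e = 0 ∧ 4 * a ≤ n ∧ 5 * n < 24 * a) ∨
  (e = 1 ∧ 3 * a ≤ 2 * n ∧ n < 6 * a) ∨ (e = 2 ∧ 6 * a ≤ 5 * n ∧ n < 3 * a) ∨
  (e = 3 ∧ 3 * a ≤ 2 * n ∧ 5 * n < 36 * a) ∨
  (4 ≤ e ∧ e % 2 = 0 ∧ 6 * a ≤ 5 * n ∧ 5 * n < 18 * a) ∨
  (5 ≤ e ∧ e % 2 = 1 ∧ 9 * a ≤ 5 * n ∧ 5 * n < 36 * a)

/-- the condition for `a = 2^e * 3^b * v` to be chosen; `l = L n v`, `q = 2^l * v` -/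
def cond (n l q e a : ℕ) : Prop :=
  if 8 * q ≤ 5 * n then (if l % 2 = 1 then inW1 n e a else inW0 n e a)
  else if l % 2 = 1 then inN1 n e a
  else if 4 * n < 5 * q then inT n e a else inN0 n e a

theorem cond_bound {n l q e a : ℕ} (h : cond n l q e a) : 5 * n < 36 * a := by
  unfold cond inW1 inW0 inN1 inN0 inT at h
  split_ifs at h <;> omega

theorem own_2 {n l q e x z : ℕ} (hz : z ≤ n) (h : cond n l q (e + 1) z) (hx : cond n l q e x)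
    (hzx : z = 2 * x) {y : ℕ} {f : ℕ} (hy : cond n l q f y)
    (hf : (z = 3 * y ∧ f = e + 1) ∨ (z = 4 * y ∧ f + 1 = e) ∨ (z = 6 * y ∧ f = e)) : False := by
  unfold cond at h hx hy
  split_ifs at h hx hy
  · unfold inW1 at h hx hy
    omega
  · unfold inW0 at h hx hy
    omega
  · unfold inN1 at h hx hy
    omega
  · unfold inT at h hx hy
    omega
  · unfold inN0 at h hx hy
    omega

theorem own_3 {n l q e x z : ℕ} (hz : z ≤ n) (h : cond n l q e z) (hx : cond n l q e x)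
    (hzx : z = 3 * x) {y : ℕ} {f : ℕ} (hy : cond n l q f y)
    (hf : (z = 4 * y ∧ f + 2 = e) ∨ (z = 6 * y ∧ f + 1 = e)) : False := by
  unfold cond at h hx hy
  split_ifs at h hx hy
  · unfold inW1 at h hx hy
    omega
  · unfold inW0 at h hx hy
    omega
  · unfold inN1 at h hx hy
    omega
  · unfold inT at h hx hy
    omega
  · unfold inN0 at h hx hy
    omega

theorem own_46 {n l q e x y z : ℕ} (hz : z ≤ n) (h : cond n l q (e + 2) z)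
    (hx : cond n l q e x) (hzx : z = 4 * x) (hy : cond n l q (e + 1) y)
    (hzy : z = 6 * y) : False := by
  unfold cond at h hx hy
  split_ifs at h hx hy
  · unfold inW1 at h hx hy
    omega
  · unfold inW0 at h hx hy
    omega
  · unfold inN1 at h hx hy
    omega
  · unfold inT at h hx hy
    omega
  · unfold inN0 at h hx hy
    omega

/-- the relation between the classes of `v = 5 u` and `u` -/
def rel5 (n l q l' q' : ℕ) : Prop :=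
  (5 * q' ≤ 4 * n ∧ l' = l + 2 ∧ 4 * q = 5 * q') ∨ (4 * n < 5 * q' ∧ l' = l + 3 ∧ 8 * q = 5 * q')

/-- the relation between the classes of `v = 7 u` and `u` -/
def rel7 (n l q l' q' : ℕ) : Prop :=
  (7 * q' ≤ 4 * n ∧ l' = l + 2 ∧ 4 * q = 7 * q') ∨ (4 * n < 7 * q' ∧ l' = l + 3 ∧ 8 * q = 7 * q')

theorem cross5 {n l q l' q' e x z : ℕ} (hz : z ≤ n) (h : cond n l q e z)
    (hx : cond n l' q' e x) (hzx : z = 5 * x) (hr : rel5 n l q l' q') (h1 : q' ≤ n)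
    (h2 : n < 2 * q') (h3 : q ≤ n) (h4 : n < 2 * q) :
    e = 0 ∧ 5 * n < 6 * z ∧ ((8 * q ≤ 5 * n ∧ l % 2 = 0) ∨ (5 * n < 8 * q ∧ l % 2 = 1 ∧
      l' % 2 = 1)) := by
  unfold rel5 at hr
  unfold cond at h hx
  split_ifs at h hx
  all_goals simp only [inW1, inW0, inN1, inN0, inT] at h hx
  all_goals omega

theorem cross7 {n l q l' q' e x z : ℕ} (hz : z ≤ n) (h : cond n l q e z)
    (hx : cond n l' q' e x) (hzx : z = 7 * x) (hr : rel7 n l q l' q') (h1 : q' ≤ n)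
    (h2 : n < 2 * q') (h3 : q ≤ n) (h4 : n < 2 * q) : False := by
  unfold rel7 at hr
  unfold cond at h hx
  split_ifs at h hx
  all_goals simp only [inW1, inW0, inN1, inN0, inT] at h hx
  all_goals omega

theorem cross53 {n l q y z : ℕ} (hz : z ≤ n) (hy : cond n l q 0 y) (hzy : z = 3 * y)
    (h5 : 5 * n < 6 * z) (h8 : 8 * q ≤ 5 * n) (hl : l % 2 = 0) : False := by
  unfold cond at hy
  split_ifs at hy
  · omega
  · unfold inW0 at hy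
    omega

end Pool.Agent.P773b84
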