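import Pool.Agent.Lib.P773b84.Numeric

/-! `g n = γ n + O(log n)`. -/

namespace Pool.Agent.P773b84

open Finset Filter Topology

/-- the exceptional classes belonging to `b` -/
def ee (n b : ℕ) : ℕ := ∑ l ∈ range (b + 1), (W n (lo (b, l)) (hi (b, l))).card

theorem W_zero_of_lt {n b l : ℕ} (h : b < l) : (W n (lo (b, l)) (hi (b, l))).card = 0 := by
  apply W_empty
  by_contra hcon
  have := le_of_lo_lt_hi (p := (b, l)) (by omega)
  simp only at this
  omega

theorem ee_bound (n b : ℕ) : |(ee n b : ℝ) - n * (mm b / 3)| ≤ 4 := by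
  by_cases h : ∃ l, lo (b, l) < hi (b, l)
  · obtain ⟨l, hl⟩ := h
    have hlb := le_of_lo_lt_hi hl
    simp only at hlb
    have huniq : ∀ k, k ≠ l → hi (b, k) ≤ lo (b, k) := by
      intro k hk
      by_contra hcon
      have a1 : 10 * 4 ^ l ≤ lo (b, l) := le_max_right _ _
      have a2 : hi (b, l) ≤ 18 * 3 ^ b := min_le_left _ _
      have a3 : 15 * 3 ^ b ≤ lo (b, l) := le_max_left _ _
      have a4 : hi (b, l) ≤ 16 * 4 ^ l := min_le_right _ _
      have b1 : 10 * 4 ^ k ≤ lo (b, k) := le_max_right _ _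
      have b2 : hi (b, k) ≤ 18 * 3 ^ b := min_le_left _ _
      have b3 : 15 * 3 ^ b ≤ lo (b, k) := le_max_left _ _
      have b4 : hi (b, k) ≤ 16 * 4 ^ k := min_le_right _ _
      rcases Nat.lt_or_ge k l with h1 | h1
      · have a5 : 4 ^ (k + 1) ≤ 4 ^ l := Nat.pow_le_pow_right (by norm_num) (by omega)
        have a6 : 4 ^ (k + 1) = 4 * 4 ^ k := by rw [pow_succ]; ring
        omega
      · have a5 : 4 ^ (l + 1) ≤ 4 ^ k := Nat.pow_le_pow_right (by norm_num) (by omega)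
        have a6 : 4 ^ (l + 1) = 4 * 4 ^ l := by rw [pow_succ]; ring
        omega
    have h1 : ee n b = (W n (lo (b, l)) (hi (b, l))).card := by
      unfold ee
      apply Finset.sum_eq_single l
      · intro k _ hk
        exact W_empty (huniq k hk)
      · intro h
        rw [Finset.mem_range] at h
        omega
    have h2 : mm b = M (b, l) := by
      unfold mm
      apply Finset.sum_eq_single l
      · intro k _ hk
        exact M_of_le (huniq k hk)
      · intro h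
        rw [Finset.mem_range] at h
        omega
    rw [h1, h2]
    exact W_bound n (b, l)
  · push Not at h
    have h1 : ee n b = 0 := by
      unfold ee
      exact Finset.sum_eq_zero (fun l _ => W_empty (h l))
    have h2 : mm b = 0 := by
      unfold mm
      exact Finset.sum_eq_zero (fun l _ => M_of_le (h l))
    rw [h1, h2]
    norm_num

theorem E_eq_ee (n : ℕ) : (E n).card = ∑ b ∈ range n, ee n b := by
  rw [E_card, Finset.sum_product]
  apply Finset.sum_congr rfl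
  intro b hb
  rw [Finset.mem_range] at hb
  unfold ee
  symm
  apply Finset.sum_subset
  · intro l hl
    rw [Finset.mem_range] at hl ⊢
    omega
  · intro l _ hl
    rw [Finset.mem_range] at hl
    exact W_zero_of_lt (by omega)

theorem ee_zero {n b : ℕ} (h : n < 3 ^ b) : ee n b = 0 := by
  unfold ee
  apply Finset.sum_eq_zero
  intro l _
  rw [Finset.card_eq_zero, Finset.eq_empty_iff_forall_notMem]
  intro v hv
  obtain ⟨hv1, -, -, a1, -, -, -⟩ := mem_W.1 hv
  simp only at a1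
  have h3 : 15 * 3 ^ b * 1 ≤ 15 * 3 ^ b * v := Nat.mul_le_mul_left _ hv1
  omega

theorem E_eq_log (n : ℕ) : (E n).card = ∑ b ∈ range (Nat.log 3 n + 1), ee n b := by
  rw [E_eq_ee]
  rcases Nat.eq_zero_or_pos n with h0 | h0
  · subst h0
    simp [ee_zero]
  have hlog : ∀ b, Nat.log 3 n + 1 ≤ b → n < 3 ^ b := by
    intro b hb
    calc n < 3 ^ (Nat.log 3 n + 1) := Nat.lt_pow_succ_log_self (by norm_num) n
      _ ≤ 3 ^ b := Nat.pow_le_pow_right (by norm_num) hb
  have hln : Nat.log 3 n + 1 ≤ n := by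
    have := Nat.log_lt_self 3 (x := n) (by omega)
    omega
  symm
  apply Finset.sum_subset
  · intro b hb
    rw [Finset.mem_range] at hb ⊢
    omega
  · intro b _ hb
    rw [Finset.mem_range] at hb
    exact ee_zero (hlog b (by omega))

theorem mm_tail (N : ℕ) : ∑' b, mm (b + N) ≤ 1 / (60 * 3 ^ N) := by
  have h1 : Summable (fun b : ℕ => (1 : ℝ) / (90 * 3 ^ (b + N))) :=
    (summable_nat_add_iff N).2 geo_summable
  have h2 : ∑' b, mm (b + N) ≤ ∑' b : ℕ, (1 : ℝ) / (90 * 3 ^ (b + N)) :=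
    ((summable_nat_add_iff N).2 mm_summable).tsum_le_tsum (fun b => mm_le (b + N)) h1
  have h4 : ∀ b : ℕ, (1 : ℝ) / (90 * 3 ^ (b + N)) = 1 / (90 * 3 ^ N) * (1 / 3) ^ b := by
    intro b
    rw [one_div_pow, one_div_mul_one_div]
    congr 1
    rw [pow_add]
    ring
  rw [tsum_congr h4, tsum_mul_left, tsum_geometric_of_lt_one (by norm_num) (by norm_num)] at h2
  have h5 : (1 : ℝ) / (90 * 3 ^ N) * (1 - 1 / 3)⁻¹ = 1 / (60 * 3 ^ N) := by
    field_simp
    norm_num
  linarith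

theorem sum_abs_le {N : ℕ} {K : ℝ} {f h : ℕ → ℝ} (hh : ∀ b, |f b - h b| ≤ K) :
    |∑ b ∈ range N, f b - ∑ b ∈ range N, h b| ≤ N * K := by
  rw [← Finset.sum_sub_distrib]
  refine le_trans (Finset.abs_sum_le_sum_abs _ _) ?_
  refine le_trans (Finset.sum_le_sum (fun b _ => hh b)) ?_
  rw [Finset.sum_const, Finset.card_range, nsmul_eq_mul]

theorem E_rate {n : ℕ} (hn : 0 < n) :
    |((E n).card : ℝ) - n * (1 / 3 * ∑' p, M p)| ≤ 4 * (Nat.log 3 n + 1) + 1 := by
  set N := Nat.log 3 n + 1 with hN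
  have h1 : ((E n).card : ℝ) = ∑ b ∈ range N, (ee n b : ℝ) := by
    rw [E_eq_log]; push_cast; rfl
  have h2 := sum_abs_le (N := N) (ee_bound n)
  have h3 : ∑ b ∈ range N, (n : ℝ) * (mm b / 3) = n / 3 * ∑ b ∈ range N, mm b := by
    rw [Finset.mul_sum]
    apply Finset.sum_congr rfl
    intro b _
    ring
  have h4 := mm_summable.sum_add_tsum_nat_add N
  have h5 := mm_tail N
  have h6 : 0 ≤ ∑' b, mm (b + N) := tsum_nonneg (fun b => mm_nonneg _)
  have h7 : (n : ℝ) < 3 ^ N := by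
    have := Nat.lt_pow_succ_log_self (b := 3) (by norm_num) n
    exact_mod_cast this
  have hn' : (0 : ℝ) < n := by exact_mod_cast hn
  have h8 : (n : ℝ) * (1 / (60 * 3 ^ N)) ≤ 1 := by
    rw [mul_one_div, div_le_one (by positivity)]
    linarith
  have h9 : (n : ℝ) * ∑' b, mm (b + N) ≤ 1 :=
    le_trans (mul_le_mul_of_nonneg_left h5 hn'.le) h8
  have h10 : 0 ≤ (n : ℝ) * ∑' b, mm (b + N) := mul_nonneg hn'.le h6
  rw [sum_M, ← h4, h1]
  rw [h3] at h2
  have h11 : ((N : ℕ) : ℝ) = (Nat.log 3 n : ℝ) + 1 := by rw [hN]; push_cast; ring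
  rw [h11] at h2
  have h12 := abs_le.1 h2
  have e : (n : ℝ) * (1 / 3 * (∑ b ∈ range N, mm b + ∑' b, mm (b + N))) =
      n / 3 * ∑ b ∈ range N, mm b + (n * ∑' b, mm (b + N)) / 3 := by ring
  rw [e, abs_le]
  constructor
  · linarith [h12.1]
  · linarith [h12.2]

theorem S_zero' {n j : ℕ} (h : n < 4 ^ j) : (S n j).card = 0 := by
  rw [Finset.card_eq_zero, Finset.eq_empty_iff_forall_notMem]
  intro v hv
  unfold S at hv
  rw [Finset.mem_filter, Finset.mem_Icc] at hv
  have h3 : 2 * 4 ^ j * 1 ≤ 2 * 4 ^ j * v := Nat.mul_le_mul_left _ hv.1.1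
  omega

theorem S_eq_log {n : ℕ} (hn : 0 < n) :
    ∑ j ∈ range n, (S n j).card = ∑ j ∈ range (Nat.log 3 n + 1), (S n j).card := by
  have hlog : ∀ b, Nat.log 3 n + 1 ≤ b → n < 4 ^ b := by
    intro b hb
    calc n < 3 ^ (Nat.log 3 n + 1) := Nat.lt_pow_succ_log_self (by norm_num) n
      _ ≤ 3 ^ b := Nat.pow_le_pow_right (by norm_num) hb
      _ ≤ 4 ^ b := Nat.pow_le_pow_left (by norm_num) _
  have hln : Nat.log 3 n + 1 ≤ n := by
    have := Nat.log_lt_self 3 (x := n) (by omega)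
    omega
  symm
  apply Finset.sum_subset
  · intro b hb
    rw [Finset.mem_range] at hb ⊢
    omega
  · intro b _ hb
    rw [Finset.mem_range] at hb
    exact S_zero' (hlog b (by omega))

theorem S_rate {n : ℕ} (hn : 0 < n) :
    |((∑ j ∈ range n, (S n j).card : ℕ) : ℝ) - n * (2 / 9)| ≤ 2 * (Nat.log 3 n + 1) + 1 := by
  set N := Nat.log 3 n + 1 with hN
  have hb : ∀ j, |((S n j).card : ℝ) - n * (1 / 6 * (1 / 4) ^ j)| ≤ 2 := by
    intro j
    have h1 := card_le_bound (a := 2 * 4 ^ j) (by positivity) n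
    have h2 : (n : ℝ) * (1 / 6 * (1 / 4) ^ j) = n * (1 / (3 * ((2 * 4 ^ j : ℕ) : ℝ))) := by
      push_cast
      rw [one_div_pow]
      field_simp
      ring
    rw [h2]
    exact h1
  have h2 := sum_abs_le (N := N) hb
  have h1 : ((∑ j ∈ range n, (S n j).card : ℕ) : ℝ) = ∑ j ∈ range N, ((S n j).card : ℝ) := by
    rw [S_eq_log hn]; push_cast; rfl
  have h3 : ∑ j ∈ range N, (n : ℝ) * (1 / 6 * (1 / 4) ^ j) = n * (2 / 9) * (1 - (1 / 4) ^ N) := by
    rw [← Finset.mul_sum, ← Finset.mul_sum, geom_sum_eq (by norm_num)]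
    ring
  have h7 : (n : ℝ) < 4 ^ N := by
    have h8 := Nat.lt_pow_succ_log_self (b := 3) (by norm_num) n
    have h9 : 3 ^ (Nat.log 3 n + 1) ≤ 4 ^ (Nat.log 3 n + 1) := Nat.pow_le_pow_left (by norm_num) _
    have h10 : n < 4 ^ (Nat.log 3 n + 1) := by omega
    exact_mod_cast h10
  have hn' : (0 : ℝ) < n := by exact_mod_cast hn
  have h8 : (n : ℝ) * (1 / 4) ^ N ≤ 1 := by
    rw [one_div_pow, mul_one_div, div_le_one (by positivity)]
    linarith
  have h10 : 0 ≤ (n : ℝ) * (1 / 4) ^ N := by positivity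
  rw [h3] at h2
  rw [h1]
  have h11 : ((N : ℕ) : ℝ) = (Nat.log 3 n : ℝ) + 1 := by rw [hN]; push_cast; ring
  rw [h11] at h2
  have h12 := abs_le.1 h2
  rw [abs_le]
  constructor
  · linarith [h12.1]
  · linarith [h12.2]

theorem natlog_le {n : ℕ} (hn : 0 < n) : (Nat.log 3 n : ℝ) ≤ Real.log n := by
  have h1 : 3 ^ Nat.log 3 n ≤ n := Nat.pow_log_le_self 3 hn.ne'
  have h2 : ((3 : ℝ)) ^ Nat.log 3 n ≤ n := by exact_mod_cast h1
  have h3 : Real.log ((3 : ℝ) ^ Nat.log 3 n) ≤ Real.log n := Real.log_le_log (by positivity) h2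
  rw [Real.log_pow] at h3
  have h4 : (1 : ℝ) ≤ Real.log 3 := by
    rw [Real.le_log_iff_exp_le (by norm_num)]
    exact Real.exp_one_lt_d9.le.trans (by norm_num)
  have h5 : (0 : ℝ) ≤ (Nat.log 3 n : ℝ) := Nat.cast_nonneg _
  nlinarith

theorem g_rate {n : ℕ} (hn : 2 ≤ n) :
    |(g n : ℝ) - (13 / 18 - 1 / 3 * ∑' p, M p) * n| ≤ 20 * Real.log n := by
  have hn0 : 0 < n := by omega
  have h3 := g_formula n
  have h4 : (g n : ℝ) + ((E n).card : ℝ) =
      (((n + 1) / 2 : ℕ) : ℝ) + ((∑ j ∈ range n, (S n j).card : ℕ) : ℝ) := by exact_mod_cast h3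
  have h1 := abs_le.1 (E_rate hn0)
  have h2 := abs_le.1 (S_rate hn0)
  have a1 : 2 * ((n + 1) / 2) ≤ n + 1 := by omega
  have a2 : n ≤ 2 * ((n + 1) / 2) := by omega
  have a1' : (2 : ℝ) * (((n + 1) / 2 : ℕ) : ℝ) ≤ n + 1 := by exact_mod_cast a1
  have a2' : (n : ℝ) ≤ 2 * (((n + 1) / 2 : ℕ) : ℝ) := by exact_mod_cast a2
  have h5 := natlog_le hn0
  have h6 : Real.log 2 ≤ Real.log n := by
    apply Real.log_le_log (by norm_num)
    exact_mod_cast hn
  have h7 := Real.log_two_gt_d9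
  rw [abs_le]
  constructor
  · linarith [h1.1, h1.2, h2.1, h2.2]
  · linarith [h1.1, h1.2, h2.1, h2.2]

end Pool.Agent.P773b84
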