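import Pool.Agent.Lib.P773b84.Defs

/-! Upper bound for `g`. -/

namespace Pool.Agent.P773b84

open Finset

/-- exponents `i` with `2^i * 3^b * v ∈ A` -/
def row (A : Finset ℕ) (n v b : ℕ) : Finset ℕ :=
  (range (n + 1)).filter (fun i => 2 ^ i * 3 ^ b * v ∈ A)

/-- rows of the class of `v` -/
def rows (n v : ℕ) : Finset ℕ := (range (n + 1)).filter (fun b => 3 ^ b * v ≤ n)

/-- rows containing two elements -/
def T2 (A : Finset ℕ) (n v : ℕ) : Finset ℕ :=
  (rows n v).filter (fun b => 2 ≤ (row A n v b).card)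

/-- empty rows -/
def Z0 (A : Finset ℕ) (n v : ℕ) : Finset ℕ :=
  (rows n v).filter (fun b => (row A n v b).card = 0)

/-- the elements of `A` in the class of `v` -/
def cls (A : Finset ℕ) (v : ℕ) : Finset ℕ := A.filter (fun a => core a = v)

variable {A : Finset ℕ} {n v : ℕ}

theorem mem_row {b i : ℕ} (hA : A ⊆ Icc 1 n) (hv : 0 < v) :
    i ∈ row A n v b ↔ 2 ^ i * 3 ^ b * v ∈ A := by
  unfold row
  rw [Finset.mem_filter, Finset.mem_range]
  constructor
  · exact fun h => h.2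
  · intro h
    refine ⟨?_, h⟩
    have h1 := (Finset.mem_Icc.1 (hA h)).2
    have h2 : i < 2 ^ i := Nat.lt_two_pow_self
    have h3 : 1 ≤ 3 ^ b * v := Nat.mul_pos (by positivity) hv
    have h4 : 2 ^ i * 1 ≤ 2 ^ i * (3 ^ b * v) := Nat.mul_le_mul_left _ h3
    have h5 : 2 ^ i * (3 ^ b * v) = 2 ^ i * 3 ^ b * v := by ring
    omega

theorem mem_rows {b : ℕ} (hv : 0 < v) : b ∈ rows n v ↔ 3 ^ b * v ≤ n := by
  unfold rows
  rw [Finset.mem_filter, Finset.mem_range]
  constructor
  · exact fun h => h.2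
  · intro h
    refine ⟨?_, h⟩
    have h2 : b < 3 ^ b := Nat.lt_pow_self (by norm_num)
    have h3 : 3 ^ b * 1 ≤ 3 ^ b * v := Nat.mul_le_mul_left _ hv
    omega

theorem el_dvd {i j b c : ℕ} (h1 : i ≤ j) (h2 : b ≤ c) :
    2 ^ i * 3 ^ b * v ∣ 2 ^ j * 3 ^ c * v :=
  Nat.mul_dvd_mul (Nat.mul_dvd_mul (pow_dvd_pow 2 h1) (pow_dvd_pow 3 h2)) (dvd_refl v)

theorem el_ne {i j b c : ℕ} (hv : Nat.Coprime v 6) (h : i ≠ j ∨ b ≠ c) :
    2 ^ i * 3 ^ b * v ≠ 2 ^ j * 3 ^ c * v := by
  intro e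
  obtain ⟨e1, e2, -⟩ := rep_unique hv hv e
  rcases h with h | h
  · exact h e1
  · exact h e2

/-- no element of an admissible set has two others below it in the class -/
theorem no_two (had : Admissible A) (hv : Nat.Coprime v 6) {i b j c k d : ℕ}
    (h0 : 2 ^ k * 3 ^ d * v ∈ A) (h1 : 2 ^ i * 3 ^ b * v ∈ A) (h2 : 2 ^ j * 3 ^ c * v ∈ A)
    (hi : i ≤ k) (hb : b ≤ d) (hj : j ≤ k) (hc : c ≤ d)
    (n1 : i ≠ k ∨ b ≠ d) (n2 : j ≠ k ∨ c ≠ d) (n3 : i ≠ j ∨ b ≠ c) : False := by
  refine had _ h0 _ h1 _ h2 (fun e => el_ne hv n1 e.symm) (fun e => el_ne hv n2 e.symm)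
    (el_ne hv n3) ⟨el_dvd hi hb, el_dvd hj hc⟩

theorem row_card_le (hA : A ⊆ Icc 1 n) (had : Admissible A) (hv : Nat.Coprime v 6) (b : ℕ) :
    (row A n v b).card ≤ 2 := by
  by_contra hcon
  have h3 : 2 < (row A n v b).card := by omega
  obtain ⟨x, y, z, hx, hy, hz, hxy, hxz, hyz⟩ := Finset.two_lt_card_iff.1 h3
  have hv0 := cop_pos hv
  rw [mem_row hA hv0] at hx hy hz
  rcases le_total x y with h | h <;> rcases le_total y z with h' | h' <;>
    rcases le_total x z with h'' | h''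
  · exact no_two had hv hz hx hy h'' le_rfl h' le_rfl (Or.inl hxz) (Or.inl hyz) (Or.inl hxy)
  · exact no_two had hv hz hx hy (le_trans h h') le_rfl h' le_rfl (Or.inl hxz) (Or.inl hyz)
      (Or.inl hxy)
  · exact no_two had hv hy hx hz h le_rfl h' le_rfl (Or.inl hxy) (Or.inl hyz.symm) (Or.inl hxz)
  · exact no_two had hv hy hx hz h le_rfl h' le_rfl (Or.inl hxy) (Or.inl hyz.symm) (Or.inl hxz)
  · exact no_two had hv hz hx hy h'' le_rfl h' le_rfl (Or.inl hxz) (Or.inl hyz) (Or.inl hxy)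
  · exact no_two had hv hx hy hz h le_rfl h'' le_rfl (Or.inl hxy.symm) (Or.inl hxz.symm)
      (Or.inl hyz)
  · exact no_two had hv hx hy hz h le_rfl (le_trans h' h) le_rfl (Or.inl hxy.symm)
      (Or.inl hxz.symm) (Or.inl hyz)
  · exact no_two had hv hx hy hz h le_rfl (le_trans h' h) le_rfl (Or.inl hxy.symm)
      (Or.inl hxz.symm) (Or.inl hyz)

theorem T2_spec (hA : A ⊆ Icc 1 n) (hv : Nat.Coprime v 6) {b : ℕ} (hb : b ∈ T2 A n v) :
    ∃ p a, p < a ∧ 2 ^ p * 3 ^ b * v ∈ A ∧ 2 ^ a * 3 ^ b * v ∈ A := by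
  unfold T2 at hb
  rw [Finset.mem_filter] at hb
  obtain ⟨x, hx, y, hy, hxy⟩ := Finset.one_lt_card.1 (show 1 < (row A n v b).card by omega)
  rw [mem_row hA (cop_pos hv)] at hx hy
  rcases lt_or_gt_of_ne hxy with h | h
  · exact ⟨x, y, h, hx, hy⟩
  · exact ⟨y, x, h, hy, hx⟩

/-- a chain inequality -/
theorem chain_lt (had : Admissible A) (hv : Nat.Coprime v 6) {i b p a c : ℕ} (hbc : b < c)
    (hi : 2 ^ i * 3 ^ b * v ∈ A) (hp : 2 ^ p * 3 ^ c * v ∈ A) (ha : 2 ^ a * 3 ^ c * v ∈ A)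
    (hpa : p < a) : a < i := by
  by_contra hcon
  exact no_two had hv ha hi hp (by omega) hbc.le hpa.le le_rfl (Or.inr hbc.ne)
    (Or.inl hpa.ne) (Or.inr hbc.ne)

theorem el_le (hA : A ⊆ Icc 1 n) {x : ℕ} (hx : x ∈ A) : x ≤ n := (Finset.mem_Icc.1 (hA hx)).2

theorem exp_le_L (hA : A ⊆ Icc 1 n) (hv : Nat.Coprime v 6) {a b : ℕ}
    (ha : 2 ^ a * 3 ^ b * v ∈ A) : a ≤ L n v := by
  have hv0 := cop_pos hv
  have h1 := el_le hA ha
  have h3 : 1 ≤ 3 ^ b := Nat.one_le_iff_ne_zero.2 (by positivity)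
  have h2 : 2 ^ a * v ≤ 2 ^ a * 3 ^ b * v := by
    apply Nat.mul_le_mul_right
    exact Nat.le_mul_of_pos_right _ h3
  have hvn : v ≤ n := by
    have h4 : 1 ≤ 2 ^ a := Nat.one_le_iff_ne_zero.2 (by positivity)
    have : 1 * v ≤ 2 ^ a * v := Nat.mul_le_mul_right _ h4
    omega
  have h5 := (L_spec hv0 hvn).2
  have h6 : 2 ^ a * v < 2 ^ (L n v + 1) * v := by omega
  have h7 : 2 ^ a < 2 ^ (L n v + 1) := lt_of_mul_lt_mul_right h6 (Nat.zero_le _)
  have h8 := (Nat.pow_lt_pow_iff_right (by norm_num : 1 < 2)).1 h7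
  omega

theorem chain_count (hA : A ⊆ Icc 1 n) (had : Admissible A) (hv : Nat.Coprime v 6) (b : ℕ) :
    ∀ p a, p < a → 2 ^ p * 3 ^ b * v ∈ A → 2 ^ a * 3 ^ b * v ∈ A →
      a + 2 * ((T2 A n v).filter (fun c => c < b)).card ≤ L n v := by
  induction b using Nat.strong_induction_on with
  | _ b ih =>
    intro p a hpa hp ha
    rcases Finset.eq_empty_or_nonempty ((T2 A n v).filter (fun c => c < b)) with he | hne
    · rw [he, Finset.card_empty]
      have := exp_le_L hA hv ha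
      omega
    · set c := ((T2 A n v).filter (fun c => c < b)).max' hne with hc
      have hcm : c ∈ (T2 A n v).filter (fun c => c < b) := Finset.max'_mem _ _
      obtain ⟨hcT, hcb⟩ := Finset.mem_filter.1 hcm
      obtain ⟨p', a', hpa', hp', ha'⟩ := T2_spec hA hv hcT
      have h1 := ih c hcb p' a' hpa' hp' ha'
      have h2 := chain_lt had hv hcb hp' hp ha hpa
      have h3 : ((T2 A n v).filter (fun c => c < b)) =
          insert c ((T2 A n v).filter (fun d => d < c)) := by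
        ext d
        rw [Finset.mem_insert, Finset.mem_filter, Finset.mem_filter]
        constructor
        · rintro ⟨hd, hdb⟩
          have hdc : d ≤ c := Finset.le_max' _ _ (Finset.mem_filter.2 ⟨hd, hdb⟩)
          rcases Nat.lt_or_ge d c with h | h
          · exact Or.inr ⟨hd, h⟩
          · exact Or.inl (le_antisymm hdc h)
        · rintro (h | ⟨hd, hdc⟩)
          · rw [h]; exact ⟨hcT, hcb⟩
          · exact ⟨hd, lt_trans hdc hcb⟩
      have h4 : c ∉ ((T2 A n v).filter (fun d => d < c)) := by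
        intro h
        exact absurd (Finset.mem_filter.1 h).2 (lt_irrefl _)
      rw [h3, Finset.card_insert_of_notMem h4]
      omega

theorem T2_max_count (hne : (T2 A n v).Nonempty) :
    ((T2 A n v).filter (fun c => c < (T2 A n v).max' hne)).card + 1 = (T2 A n v).card := by
  set c := (T2 A n v).max' hne with hc
  have hcm : c ∈ T2 A n v := Finset.max'_mem _ _
  have h3 : T2 A n v = insert c ((T2 A n v).filter (fun d => d < c)) := by
    ext d
    rw [Finset.mem_insert, Finset.mem_filter]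
    constructor
    · intro hd
      have hdc : d ≤ c := Finset.le_max' _ _ hd
      rcases Nat.lt_or_ge d c with h | h
      · exact Or.inr ⟨hd, h⟩
      · exact Or.inl (le_antisymm hdc h)
    · rintro (h | ⟨hd, hdc⟩)
      · rw [h]; exact hcm
      · exact hd
  have h4 : c ∉ ((T2 A n v).filter (fun d => d < c)) := by
    intro h
    exact absurd (Finset.mem_filter.1 h).2 (lt_irrefl _)
  have h5 := congrArg Finset.card h3
  rw [Finset.card_insert_of_notMem h4] at h5
  exact h5.symm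

theorem T2_card_le (hA : A ⊆ Icc 1 n) (had : Admissible A) (hv : Nat.Coprime v 6) :
    (T2 A n v).card ≤ J n v := by
  rcases Finset.eq_empty_or_nonempty (T2 A n v) with he | hne
  · rw [he, Finset.card_empty]; exact Nat.zero_le _
  · have h1 := T2_max_count hne
    obtain ⟨p, a, hpa, hp, ha⟩ := T2_spec hA hv (Finset.max'_mem _ hne)
    have h2 := chain_count hA had hv _ p a hpa hp ha
    unfold J
    omega

/-- in the tight case with `L` odd the last row with two elements has exponents `0,1` -/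
theorem last_row (hA : A ⊆ Icc 1 n) (had : Admissible A) (hv : Nat.Coprime v 6)
    (hodd : L n v % 2 = 1) (hT : (T2 A n v).card = J n v) :
    ∃ b, 3 ^ b * v ∈ A ∧ 2 * 3 ^ b * v ∈ A := by
  have hne : (T2 A n v).Nonempty := by
    rw [← Finset.card_pos, hT]
    unfold J
    omega
  have h1 := T2_max_count hne
  obtain ⟨p, a, hpa, hp, ha⟩ := T2_spec hA hv (Finset.max'_mem _ hne)
  have h2 := chain_count hA had hv _ p a hpa hp ha
  unfold J at hT
  have ha1 : a = 1 := by omega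
  have hp0 : p = 0 := by omega
  subst ha1 hp0
  refine ⟨(T2 A n v).max' hne, ?_, ?_⟩
  · simpa using hp
  · simpa using ha

theorem cls_card_le (hA : A ⊆ Icc 1 n) (had : Admissible A) (hv : Nat.Coprime v 6) :
    (cls A v).card + (Z0 A n v).card ≤ (rows n v).card + (T2 A n v).card := by
  have hv0 := cop_pos hv
  have h1 : cls A v ⊆ (rows n v).biUnion
      (fun b => (row A n v b).image (fun i => 2 ^ i * 3 ^ b * v)) := by
    intro x hx
    unfold cls at hx
    obtain ⟨hxA, hxc⟩ := Finset.mem_filter.1 hx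
    have hx1 : 1 ≤ x := (Finset.mem_Icc.1 (hA hxA)).1
    have hxn := el_le hA hxA
    obtain ⟨i, b, w, hw, rfl⟩ := rep_exists hx1
    rw [core_rep hw] at hxc
    subst hxc
    rw [Finset.mem_biUnion]
    refine ⟨b, ?_, ?_⟩
    · rw [mem_rows hv0]
      refine le_trans ?_ hxn
      have h4 : 1 ≤ 2 ^ i := Nat.one_le_iff_ne_zero.2 (by positivity)
      have : 1 * (3 ^ b * w) ≤ 2 ^ i * (3 ^ b * w) := Nat.mul_le_mul_right _ h4
      nlinarith
    · rw [Finset.mem_image]
      exact ⟨i, (mem_row hA hv0).2 hxA, rfl⟩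
  have h2 : (cls A v).card ≤ ∑ b ∈ rows n v, (row A n v b).card := by
    refine le_trans (Finset.card_le_card h1) (le_trans Finset.card_biUnion_le ?_)
    exact Finset.sum_le_sum (fun b _ => Finset.card_image_le)
  have h3 : (∑ b ∈ rows n v, (row A n v b).card) + (Z0 A n v).card ≤
      (rows n v).card + (T2 A n v).card := by
    unfold Z0 T2
    rw [Finset.card_filter, Finset.card_filter, Finset.card_eq_sum_ones, ← Finset.sum_add_distrib,
      ← Finset.sum_add_distrib]
    apply Finset.sum_le_sum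
    intro b _
    have := row_card_le hA had hv b
    split_ifs <;> omega
  omega

theorem cls_le (hA : A ⊆ Icc 1 n) (had : Admissible A) (hv : Nat.Coprime v 6) :
    (cls A v).card ≤ (rows n v).card + J n v := by
  have h1 := cls_card_le hA had hv
  have h2 := T2_card_le hA had hv
  omega

theorem cls_tight (hA : A ⊆ Icc 1 n) (had : Admissible A) (hv : Nat.Coprime v 6)
    (h : (rows n v).card + J n v ≤ (cls A v).card) :
    (T2 A n v).card = J n v ∧ ∀ b, 3 ^ b * v ≤ n → ∃ i, 2 ^ i * 3 ^ b * v ∈ A := by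
  have h1 := cls_card_le hA had hv
  have h2 := T2_card_le hA had hv
  refine ⟨by omega, ?_⟩
  intro b hb
  have h3 : (Z0 A n v).card = 0 := by omega
  rw [Finset.card_eq_zero] at h3
  have h4 : (row A n v b).card ≠ 0 := by
    intro h5
    have : b ∈ Z0 A n v := by
      unfold Z0
      rw [Finset.mem_filter, mem_rows (cop_pos hv)]
      exact ⟨hb, h5⟩
    rw [h3] at this
    simp at this
  obtain ⟨i, hi⟩ := Finset.card_pos.1 (Nat.pos_of_ne_zero h4)
  exact ⟨i, (mem_row hA (cop_pos hv)).1 hi⟩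

end Pool.Agent.P773b84
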